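import Pool.Agent.Helper85.SC.Base

namespace Pool.Agent.Helper85.SC

open IntermediateField Polynomial

/-- coefficients of `∏ (X - z_j)` -/
theorem coef_coeff_prod {K : Type*} [Field K] {n : ℕ} (z : Fin n → K) {l : ℕ} (hl : l ≤ n) :
    (∏ j, (X - C (z j))).coeff (n - l)
      = (-1) ^ l * MvPolynomial.aeval z (MvPolynomial.esymm (Fin n) K l) := by
  have h1 : (∏ j, (X - C (z j))) = ((Finset.univ.val.map z).map fun t => X - C t).prod := by
    rw [Multiset.map_map]
    rfl
  have hc : Multiset.card (Finset.univ.val.map z) = n := by simp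
  rw [h1, Multiset.prod_X_sub_C_coeff _ (by rw [hc]; omega), hc,
    MvPolynomial.aeval_esymm_eq_multiset_esymm]
  have : n - (n - l) = l := by omega
  rw [this]

/-- Newton: vanishing power sums give vanishing elementary symmetric functions -/
theorem coef_esymm_eq_zero {K : Type*} [Field K] [CharZero K] {n m : ℕ} (z : Fin n → K)
    (hp : ∀ l, 1 ≤ l → l ≤ m → ∑ i, z i ^ l = 0) {l : ℕ} (h1 : 1 ≤ l) (h2 : l ≤ m) :
    MvPolynomial.aeval z (MvPolynomial.esymm (Fin n) K l) = 0 := by
  have h := congrArg (MvPolynomial.aeval z) (MvPolynomial.mul_esymm_eq_sum (Fin n) K l)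
  rw [map_mul, map_mul, map_sum, Finset.sum_eq_zero, mul_zero] at h
  · rw [map_natCast] at h
    rcases mul_eq_zero.1 h with h | h
    · exact absurd (Nat.cast_eq_zero.1 h) (by omega)
    · exact h
  · intro a ha
    rw [Finset.mem_filter, Finset.HasAntidiagonal.mem_antidiagonal] at ha
    rw [map_mul]
    have : MvPolynomial.aeval z (MvPolynomial.psum (Fin n) K a.2) = 0 := by
      rw [MvPolynomial.psum, map_sum]
      simp only [map_pow, MvPolynomial.aeval_X]
      exact hp _ (by omega) (by omega)
    rw [this, mul_zero]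

theorem coef_mem_next {k : Type*} {K : Type*} [Field k] [Field K] [Algebra k K]
    {E : IntermediateField k K} {n m r : ℕ} (w : Fin n → K)
    (he : ∀ l, 1 ≤ l → l ≤ m → (∏ j, (X - C (w j))).coeff (n - l) = 0)
    (t : Fin r → K) (ht : ∀ i, t i ∈ E)
    (hc : ∀ l, m + 1 ≤ l → l ≤ n →
      (∏ j, (X - C (w j))).coeff (n - l) ∈ adjoin k (Set.range t)) (i : Fin n) :
    w i ∈ next k r E := by
  refine br_le_next t ht ?_
  rw [mem_br]
  have hmon : (∏ j, (X - C (w j))).Monic := monic_prod_of_monic _ _ fun j _ => monic_X_sub_C _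
  have hdeg : (∏ j, (X - C (w j))).natDegree = n := by
    rw [natDegree_prod_of_monic _ _ fun j _ => monic_X_sub_C _]
    simp
  have hl : (∏ j, (X - C (w j))) ∈ Polynomial.lifts (algebraMap (adjoin k (Set.range t)) K) := by
    rw [Polynomial.lifts_iff_coeff_lifts]
    intro s
    have hs : (∏ j, (X - C (w j))).coeff s ∈ adjoin k (Set.range t) := by
      rcases lt_or_ge n s with h | h
      · rw [coeff_eq_zero_of_natDegree_lt (by rw [hdeg]; exact h)]
        exact zero_mem _
      · have hns : s = n - (n - s) := by omega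
        rcases Nat.eq_zero_or_pos (n - s) with h0 | h0
        · have : s = n := by omega
          have h1 : (∏ j, (X - C (w j))).coeff s = 1 := by
            have h9 := hmon.coeff_natDegree
            rw [hdeg] at h9
            rw [this]
            exact h9
          rw [h1]
          exact one_mem _
        · rcases Nat.lt_or_ge m (n - s) with h2 | h2
          · rw [hns]
            exact hc _ (by omega) (by omega)
          · rw [hns, he _ (by omega) h2]
            exact zero_mem _
    exact ⟨⟨_, hs⟩, rfl⟩
  obtain ⟨q, hq⟩ := (Polynomial.mem_lifts _).1 hl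
  refine ⟨q, ?_, ?_⟩
  · rintro rfl
    rw [Polynomial.map_zero] at hq
    exact hmon.ne_zero hq.symm
  · rw [aeval_def, eval₂_eq_eval_map, hq, eval_prod]
    exact Finset.prod_eq_zero (Finset.mem_univ i) (by simp)

/-- roots of a polynomial of degree `n` over `E` whose first `m` power sums vanish are algebraic
over `n - m - 1` elements of `E`, up to a factor in `E` -/
theorem mem_next_of_psum {k : Type*} {K : Type*} [Field k] [Field K] [Algebra k K] [CharZero k]
    {E : IntermediateField k K} {n m : ℕ} (hm : m + 2 ≤ n) (z : Fin n → K)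
    (hE : ∀ i, (∏ j, (X - C (z j))).coeff i ∈ E)
    (hp : ∀ l, 1 ≤ l → l ≤ m → ∑ i, z i ^ l = 0) (i : Fin n) :
    z i ∈ next k (n - m - 1) E := by
  have : CharZero K := charZero_of_injective_algebraMap (algebraMap k K).injective
  set a : ℕ → K := fun l => (∏ j, (X - C (z j))).coeff (n - l) with ha
  have hz : ∀ l, 1 ≤ l → l ≤ m → a l = 0 := by
    intro l h1 h2
    simp only [ha]
    rw [coef_coeff_prod z (by omega), coef_esymm_eq_zero z hp h1 h2, mul_zero]
  by_cases hex : ∃ l, m + 1 ≤ l ∧ l ≤ n ∧ a l = 0
  · obtain ⟨l0, h1, h2, h3⟩ := hex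
    refine coef_mem_next z (m := m) hz
      (fun j : Fin (n - m - 1) => if m + 1 + (j : ℕ) < l0 then a (m + 1 + j) else a (m + 2 + j))
      ?_ ?_ i
    · intro j
      split_ifs
      · exact hE _
      · exact hE _
    · intro l hl1 hl2
      change a l ∈ _
      rcases lt_trichotomy l l0 with h | h | h
      · refine subset_adjoin k _ ⟨⟨l - (m + 1), by omega⟩, ?_⟩
        have h4 : m + 1 + (l - (m + 1)) = l := by omega
        simp only [h4, if_pos h]
      · rw [h, h3]
        exact zero_mem _
      · refine subset_adjoin k _ ⟨⟨l - (m + 2), by omega⟩, ?_⟩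
        have h4 : m + 2 + (l - (m + 2)) = l := by omega
        have h5 : ¬ (m + 1 + (l - (m + 2)) < l0) := by omega
        simp only [h4, if_neg h5]
  · push Not at hex
    have ha1 : a (m + 1) ≠ 0 := hex _ (by omega) (by omega)
    have ha2 : a (m + 2) ≠ 0 := hex _ (by omega) (by omega)
    set lam : K := a (m + 2) / a (m + 1) with hlam
    have hlam0 : lam ≠ 0 := div_ne_zero ha2 ha1
    have hlamE : lam ∈ E := div_mem (hE _) (hE _)
    have hb : ∀ l, l ≤ n → (∏ j, (X - C (z j / lam))).coeff (n - l) = a l / lam ^ l := by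
      intro l hl
      simp only [ha]
      rw [coef_coeff_prod z hl, coef_coeff_prod (fun j => z j / lam) hl, mul_div_assoc]
      congr 1
      rw [MvPolynomial.aeval_esymm_eq_multiset_esymm, MvPolynomial.aeval_esymm_eq_multiset_esymm]
      rw [← MvPolynomial.aeval_esymm_eq_multiset_esymm (Fin n) K,
        ← MvPolynomial.aeval_esymm_eq_multiset_esymm (Fin n) K]
      rw [MvPolynomial.esymm, map_sum, map_sum, Finset.sum_div]
      refine Finset.sum_congr rfl fun s hs => ?_
      rw [map_prod, map_prod]
      simp only [MvPolynomial.aeval_X]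
      rw [Finset.prod_div_distrib, Finset.prod_const, (Finset.mem_powersetCard.1 hs).2]
    have hw : z i / lam ∈ next k (n - m - 1) E := by
      refine coef_mem_next (fun j => z j / lam) (m := m) ?_
        (fun j : Fin (n - m - 1) => a (m + 2 + j) / lam ^ (m + 2 + (j : ℕ))) ?_ ?_ i
      · intro l h1 h2
        rw [hb l (by omega), hz l h1 h2, zero_div]
      · intro j
        exact div_mem (hE _) (pow_mem hlamE _)
      · intro l hl1 hl2
        rw [hb l hl2]
        rcases Nat.lt_or_ge l (m + 2) with h | h
        · have hl : l = m + 1 := by omega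
          refine subset_adjoin k _ ⟨⟨0, by omega⟩, ?_⟩
          simp only [hl, add_zero]
          have h6 : a (m + 2) = lam * a (m + 1) := by
            rw [hlam, div_mul_cancel₀ _ ha1]
          rw [h6, pow_succ lam (m + 1), mul_comm lam, mul_div_mul_right _ _ hlam0]
        · refine subset_adjoin k _ ⟨⟨l - (m + 2), by omega⟩, ?_⟩
          have h4 : m + 2 + (l - (m + 2)) = l := by omega
          simp only [h4]
    have : z i = lam * (z i / lam) := by
      field_simp
    rw [this]
    exact mul_mem (le_next (by omega) E hlamE) hw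

end Pool.Agent.Helper85.SC
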