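import Mathlib

namespace Pool.Agent.Helper85.SC

open MvPolynomial

namespace CountAux

variable {K : Type*} [Field K] {m : ℕ}

/-- values of the standard monomials at the points of `T` -/
noncomputable def phi (T : Finset (Fin (m + 1) → K)) (a : ∀ j : Fin m, Fin ((j : ℕ) + 1)) :
    T → K :=
  fun t => ∏ j : Fin m, (t : Fin (m + 1) → K) j.succ ^ (a j : ℕ)

theorem card_idx : Fintype.card (∀ j : Fin m, Fin ((j : ℕ) + 1)) = m.factorial := by
  rw [Fintype.card_pi]
  simp only [Fintype.card_fin]
  rw [Fin.prod_univ_eq_prod_range (fun j => j + 1) m, Finset.prod_range_add_one_eq_factorial]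

theorem eval_std {t : Fin (m + 1) → K} (ht : t 0 = 1) (e : Fin (m + 1) →₀ ℕ) :
    eval t (monomial e (1 : K)) = ∏ j : Fin m, t j.succ ^ e j.succ := by
  rw [eval_monomial, one_mul, Finsupp.prod_fintype _ _ (fun _ => pow_zero _), Fin.prod_univ_succ,
    ht, one_pow, one_mul]

theorem eval_ideal {P : Fin m → MvPolynomial (Fin (m + 1)) K} {c : Fin (m + 1) → K}
    (hc : ∀ j, eval c (P j) = 0) {p : MvPolynomial (Fin (m + 1)) K}
    (hp : p ∈ Ideal.span (Set.range P)) : eval c p = 0 := by
  have h : Ideal.span (Set.range P) ≤ RingHom.ker (eval c) := by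
    rw [Ideal.span_le]
    rintro _ ⟨j, rfl⟩
    exact hc j
  exact h hp

theorem mem_span_phi {T : Finset (Fin (m + 1) → K)} (hT : ∀ t ∈ T, t 0 = 1) {N : ℕ}
    {q : MvPolynomial (Fin (m + 1)) K}
    (hq : q ∈ Submodule.span K {q : MvPolynomial (Fin (m + 1)) K | ∃ e : Fin (m + 1) →₀ ℕ,
          e.degree = N ∧ (∀ j : Fin m, e j.succ ≤ j) ∧ q = monomial e 1}) :
    (fun t : T => eval (t : Fin (m + 1) → K) q) ∈ Submodule.span K (Set.range (phi T)) := by
  induction hq using Submodule.span_induction with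
  | mem x hx =>
    obtain ⟨e, _, he, rfl⟩ := hx
    apply Submodule.subset_span
    refine ⟨fun j => ⟨e j.succ, Nat.lt_succ_of_le (he j)⟩, ?_⟩
    funext t
    rw [eval_std (hT t t.2)]
    rfl
  | zero =>
    have : (fun t : T => eval (t : Fin (m + 1) → K) (0 : MvPolynomial (Fin (m + 1)) K)) = 0 := by
      funext t
      simp
    rw [this]
    exact Submodule.zero_mem _
  | add x y _ _ hx hy =>
    have : (fun t : T => eval (t : Fin (m + 1) → K) (x + y)) =
        (fun t : T => eval (t : Fin (m + 1) → K) x) + fun t : T => eval (t : Fin (m + 1) → K) y := by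
      funext t
      simp
    rw [this]
    exact Submodule.add_mem _ hx hy
  | smul a x _ hx =>
    have : (fun t : T => eval (t : Fin (m + 1) → K) (a • x)) =
        a • fun t : T => eval (t : Fin (m + 1) → K) x := by
      funext t
      simp [smul_eval]
    rw [this]
    exact Submodule.smul_mem _ _ hx

/-- separating forms -/
theorem exists_sep (T : Finset (Fin (m + 1) → K)) (hT : ∀ t ∈ T, t 0 = 1)
    (s : Fin (m + 1) → K) (hs : s ∈ T) :
    ∃ p : MvPolynomial (Fin (m + 1)) K, p.IsHomogeneous T.card ∧ eval s p ≠ 0 ∧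
      ∀ t ∈ T, t ≠ s → eval t p = 0 := by
  classical
  have hex : ∀ t : Fin (m + 1) → K, ∃ i : Fin (m + 1), t ≠ s → s i - t i ≠ 0 := by
    intro t
    by_cases h : t = s
    · exact ⟨0, fun h' => absurd h h'⟩
    · obtain ⟨i, hi⟩ := Function.ne_iff.mp h
      exact ⟨i, fun _ => sub_ne_zero.mpr (Ne.symm hi)⟩
  choose i hi using hex
  refine ⟨X 0 * ∏ t ∈ T.erase s, (X (i t) - C (t (i t)) * X 0), ?_, ?_, ?_⟩
  · have h1 : (∏ t ∈ T.erase s, (X (i t) - C (t (i t)) * X 0) :
        MvPolynomial (Fin (m + 1)) K).IsHomogeneous (∑ t ∈ T.erase s, 1) := by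
      refine IsHomogeneous.prod _ _ _ fun t _ => ?_
      have h2 : (C (t (i t)) * X 0 : MvPolynomial (Fin (m + 1)) K).IsHomogeneous 1 := by
        have := (isHomogeneous_C (Fin (m + 1)) (t (i t))).mul (isHomogeneous_X K (0 : Fin (m + 1)))
        rwa [zero_add] at this
      exact (isHomogeneous_X K (i t)).sub h2
    have h3 := (isHomogeneous_X K (0 : Fin (m + 1))).mul h1
    have h4 : 1 + ∑ t ∈ T.erase s, 1 = T.card := by
      rw [Finset.sum_const, smul_eq_mul, mul_one, Finset.card_erase_of_mem hs]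
      have := Finset.card_pos.mpr ⟨s, hs⟩
      omega
    rwa [h4] at h3
  · rw [map_mul, eval_X, hT s hs, one_mul, map_prod, Finset.prod_ne_zero_iff]
    intro t ht
    rw [Finset.mem_erase] at ht
    simp only [map_sub, map_mul, eval_X, eval_C]
    rw [hT s hs, mul_one]
    exact hi t ht.1
  · intro t ht hts
    rw [map_mul, map_prod]
    have : ∏ x ∈ T.erase s, eval t (X (i x) - C (x (i x)) * X 0 : MvPolynomial (Fin (m + 1)) K)
        = 0 := by
      refine Finset.prod_eq_zero (Finset.mem_erase.mpr ⟨hts, ht⟩) ?_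
      simp only [map_sub, map_mul, eval_X, eval_C]
      rw [hT t ht, mul_one, sub_self]
    rw [this, mul_zero]

theorem card_le (P : Fin m → MvPolynomial (Fin (m + 1)) K)
    (hspan : ∀ (N : ℕ) (p : MvPolynomial (Fin (m + 1)) K), p.IsHomogeneous N →
      ∃ q ∈ Submodule.span K {q : MvPolynomial (Fin (m + 1)) K | ∃ e : Fin (m + 1) →₀ ℕ,
          e.degree = N ∧ (∀ j : Fin m, e j.succ ≤ j) ∧ q = monomial e 1},
        p - q ∈ Ideal.span (Set.range P))
    (T : Finset (Fin (m + 1) → K)) (hT : ∀ t ∈ T, t 0 = 1 ∧ ∀ j, eval t (P j) = 0) :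
    T.card ≤ m.factorial := by
  classical
  have hT0 : ∀ t ∈ T, t 0 = 1 := fun t ht => (hT t ht).1
  have htop : Submodule.span K (Set.range (phi T)) = ⊤ := by
    rw [eq_top_iff]
    intro f _
    have hf : f = ∑ s : T, f s • (Pi.single s (1 : K) : T → K) := by
      funext t
      simp [Finset.sum_apply, Pi.single_apply]
    rw [hf]
    refine Submodule.sum_mem _ fun s _ => Submodule.smul_mem _ _ ?_
    obtain ⟨p, hp, hps, hpt⟩ := exists_sep T hT0 s s.2
    obtain ⟨q, hq, hpq⟩ := hspan _ p hp
    have h1 := mem_span_phi hT0 hq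
    have h2 : (fun t : T => eval (t : Fin (m + 1) → K) q) =
        eval (s : Fin (m + 1) → K) p • (Pi.single s (1 : K) : T → K) := by
      funext t
      have h3 : eval (t : Fin (m + 1) → K) (p - q) = 0 := eval_ideal (hT t t.2).2 hpq
      rw [map_sub, sub_eq_zero] at h3
      rw [← h3, Pi.smul_apply, smul_eq_mul]
      by_cases hts : t = s
      · subst hts
        rw [Pi.single_eq_same, mul_one]
      · rw [Pi.single_eq_of_ne hts, mul_zero]
        exact hpt t t.2 fun h => hts (Subtype.ext h)
    rw [h2] at h1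
    exact (Submodule.smul_mem_iff _ hps).mp h1
  have h1 : (Set.range (phi T)).finrank K ≤ Fintype.card (∀ j : Fin m, Fin ((j : ℕ) + 1)) :=
    finrank_range_le_card _
  rw [card_idx, Set.finrank, htop, finrank_top, Module.finrank_fintype_fun_eq_card,
    Fintype.card_coe] at h1
  exact h1

end CountAux

open CountAux

/-- hypothesis: the forms of every degree `N` are spanned modulo the ideal of the `P j` by the
monomials `X^e` of degree `N` with `e (j+1) <= j` for all `j < m`. Conclusion: no common zero of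
the `P j` at infinity (`c 0 = 0`) and at most `m!` common zeros with `c 0 = 1`. -/
theorem count_of_span {K : Type*} [Field K] [Infinite K] {m : ℕ}
    (P : Fin m → MvPolynomial (Fin (m + 1)) K)
    (hspan : ∀ (N : ℕ) (p : MvPolynomial (Fin (m + 1)) K), p.IsHomogeneous N →
      ∃ q ∈ Submodule.span K {q : MvPolynomial (Fin (m + 1)) K | ∃ e : Fin (m + 1) →₀ ℕ,
          e.degree = N ∧ (∀ j : Fin m, e j.succ ≤ j) ∧ q = monomial e 1},
        p - q ∈ Ideal.span (Set.range P)) :
    (∀ c : Fin (m + 1) → K, c 0 = 0 → (∀ j, eval c (P j) = 0) → c = 0) ∧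
    {c : Fin (m + 1) → K | c 0 = 1 ∧ ∀ j, eval c (P j) = 0}.Finite ∧
    {c : Fin (m + 1) → K | c 0 = 1 ∧ ∀ j, eval c (P j) = 0}.ncard ≤ m.factorial := by
  refine ⟨?_, ?_⟩
  · intro c hc0 hc
    funext i
    set N := (∑ j : Fin m, (j : ℕ)) + 1 with hN
    obtain ⟨q, hq, hpq⟩ := hspan N (X i ^ N) (by
      have := (isHomogeneous_X K i).pow N
      rwa [one_mul] at this)
    have h1 := eval_ideal hc hpq
    have hq0 : eval c q = 0 := by
      clear hpq h1
      induction hq using Submodule.span_induction with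
      | mem x hx =>
        obtain ⟨e, heN, he, rfl⟩ := hx
        rw [eval_monomial, one_mul, Finsupp.prod_fintype _ _ (fun _ => pow_zero _),
          Fin.prod_univ_succ, hc0, zero_pow, zero_mul]
        intro h0
        rw [Finsupp.degree_eq_sum, Fin.sum_univ_succ, h0, zero_add] at heN
        have : ∑ j : Fin m, e j.succ ≤ ∑ j : Fin m, (j : ℕ) := Finset.sum_le_sum fun j _ => he j
        omega
      | zero => simp
      | add x y _ _ hx hy => rw [map_add, hx, hy, add_zero]
      | smul a x _ hx => rw [smul_eval, hx, mul_zero]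
    rw [map_sub, hq0, sub_zero, map_pow, eval_X] at h1
    exact pow_eq_zero_iff (by omega) |>.mp h1
  · set Z := {c : Fin (m + 1) → K | c 0 = 1 ∧ ∀ j, eval c (P j) = 0} with hZ
    have key : ∀ T : Finset (Fin (m + 1) → K), (T : Set (Fin (m + 1) → K)) ⊆ Z →
        T.card ≤ m.factorial := fun T hT => card_le P hspan T fun t ht => hT ht
    have hfin : Z.Finite := by
      by_contra hinf
      obtain ⟨T, hT, hcard⟩ := Set.Infinite.exists_subset_card_eq hinf (m.factorial + 1)
      have := key T hT
      omega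
    refine ⟨hfin, ?_⟩
    rw [Set.ncard_eq_toFinset_card Z hfin]
    exact key _ (by rw [Set.Finite.coe_toFinset])

end Pool.Agent.Helper85.SC
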