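import Mathlib

namespace Pool.Agent.Helper85.SC

open MvPolynomial

/-- power sums of the powers of a primitive root of unity -/
theorem sum_prim_pow {k : Type*} [Field k] {d : ℕ} {ζ : k} (hζ : IsPrimitiveRoot ζ d)
    (l : ℕ) : ∑ s : Fin d, (ζ ^ (s : ℕ)) ^ l = if d ∣ l then (d : k) else 0 := by
  have h1 : ∀ s : Fin d, (ζ ^ (s : ℕ)) ^ l = (ζ ^ l) ^ (s : ℕ) := by
    intro s
    rw [← pow_mul, ← pow_mul, mul_comm]
  rw [Finset.sum_congr rfl (fun s _ => h1 s), Fin.sum_univ_eq_sum_range (fun s => (ζ ^ l) ^ s) d]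
  split_ifs with h
  · have h2 : ζ ^ l = 1 := (hζ.pow_eq_one_iff_dvd l).2 h
    simp [h2]
  · have h2 : ζ ^ l ≠ 1 := fun hc => h ((hζ.pow_eq_one_iff_dvd l).1 hc)
    have h3 := mul_geom_sum (ζ ^ l) d
    have h4 : (ζ ^ l) ^ d = 1 := by rw [← pow_mul, mul_comm, pow_mul, hζ.pow_eq_one, one_pow]
    rw [h4, sub_self] at h3
    rcases mul_eq_zero.1 h3 with h5 | h5
    · exact absurd (sub_eq_zero.1 h5) h2
    · exact h5

/-- The interpolation polynomials: `U j`, `1 <= j <= m`, takes at `j` of the points `a i` the
`j`-th roots of unity as values and `0` at the other ones, `U 0` is `1` at one further point. -/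
theorem exists_data (k : Type*) [Field k] [IsAlgClosed k] [CharZero k] {n m : ℕ}
    (hn : m * (m + 1) / 2 + 1 ≤ n) :
    ∃ (a : Fin n → k) (U : Fin (m + 1) → Polynomial k), LinearIndependent k U ∧
      (∀ j, (U j).natDegree < n) ∧ ∀ l : ℕ, 1 ≤ l →
        ∑ i, (∑ j, C ((U j).eval (a i)) * X j : MvPolynomial (Fin (m + 1)) k) ^ l =
          X 0 ^ l + ∑ j : Fin m, if ((j : ℕ) + 1) ∣ l then
            C (((j : ℕ) + 1 : ℕ) : k) * X j.succ ^ l else 0 := by
  classical
  -- the index set
  let T := Unit ⊕ (Σ j : Fin m, Fin ((j : ℕ) + 1))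
  have hcard : Fintype.card T ≤ Fintype.card (Fin n) := by
    simp only [T, Fintype.card_sum, Fintype.card_unit, Fintype.card_sigma, Fintype.card_fin]
    have h1 : ∑ j : Fin m, ((j : ℕ) + 1) = m * (m + 1) / 2 := by
      rw [Fin.sum_univ_eq_sum_range (fun j => j + 1) m]
      have h2 : ∑ j ∈ Finset.range (m + 1), j = ∑ j ∈ Finset.range m, (j + 1) := by
        rw [Finset.sum_range_succ']
        simp
      rw [← h2, Finset.sum_range_id, Nat.add_sub_cancel, mul_comm]
    omega
  obtain ⟨e⟩ := Function.Embedding.nonempty_of_card_le hcard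
  have hζ : ∀ j : Fin m, ∃ ζ : k, IsPrimitiveRoot ζ ((j : ℕ) + 1) := fun j =>
    HasEnoughRootsOfUnity.exists_primitiveRoot k ((j : ℕ) + 1)
  choose ζ hζ using hζ
  let w : T → Fin (m + 1) → k := Sum.elim (fun _ => Pi.single 0 1)
    (fun p => Pi.single p.1.succ (ζ p.1 ^ (p.2 : ℕ)))
  let v : Fin n → Fin (m + 1) → k := Function.extend e w 0
  have hve : ∀ t, v (e t) = w t := fun t => e.injective.extend_apply _ _ _
  have hv0 : ∀ i, i ∉ Set.range e → v i = 0 := by
    intro i hi
    simp only [v]
    rw [Function.extend_apply' _ _ _ (by simpa using hi)]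
    rfl
  let a : Fin n → k := fun i => ((i : ℕ) : k)
  have ha : Function.Injective a := by
    intro i i' h
    exact Fin.ext (Nat.cast_injective h)
  let U : Fin (m + 1) → Polynomial k := fun j => Lagrange.interpolate Finset.univ a (fun i => v i j)
  have hU : ∀ j i, (U j).eval (a i) = v i j := fun j i =>
    Lagrange.eval_interpolate_at_node (fun i => v i j) ha.injOn (Finset.mem_univ i)
  have hn0 : 0 < n := by omega
  refine ⟨a, U, ?_, ?_, ?_⟩
  · rw [Fintype.linearIndependent_iff]
    intro c hc j
    have key : ∀ i, ∑ j, c j * v i j = 0 := by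
      intro i
      have := congrArg (Polynomial.eval (a i)) hc
      rw [Polynomial.eval_finsetSum] at this
      simpa [hU] using this
    refine Fin.cases ?_ (fun j => ?_) j
    · have := key (e (Sum.inl ()))
      rw [hve] at this
      simpa [w, Pi.single_apply] using this
    · have := key (e (Sum.inr ⟨j, 0⟩))
      rw [hve] at this
      simpa [w, Pi.single_apply] using this
  · intro j
    have hd := Lagrange.degree_interpolate_lt (fun i => v i j) (s := Finset.univ) (v := a) ha.injOn
    rw [Finset.card_univ, Fintype.card_fin] at hd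
    by_cases h0 : U j = 0
    · rw [h0, Polynomial.natDegree_zero]
      exact hn0
    · exact (Polynomial.natDegree_lt_iff_degree_lt h0).2 hd
  · intro l hl
    have h1 : ∀ i, (∑ j, C ((U j).eval (a i)) * X j : MvPolynomial (Fin (m + 1)) k) ^ l =
        (∑ j, C (v i j) * X j) ^ l := by
      intro i
      simp only [hU]
    rw [Finset.sum_congr rfl (fun i _ => h1 i)]
    rw [← Fintype.sum_of_injective e e.injective
      (fun t => (∑ j, C (w t j) * X j : MvPolynomial (Fin (m + 1)) k) ^ l)
      (fun i => (∑ j, C (v i j) * X j : MvPolynomial (Fin (m + 1)) k) ^ l) ?_ ?_]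
    · rw [Fintype.sum_sum_type]
      congr 1
      · simp [w, Pi.single_apply, apply_ite]
      · rw [Fintype.sum_sigma]
        refine Finset.sum_congr rfl fun j _ => ?_
        have h2 : ∀ s : Fin ((j : ℕ) + 1),
            (∑ j', C (w (Sum.inr ⟨j, s⟩) j') * X j' : MvPolynomial (Fin (m + 1)) k) ^ l =
              C ((ζ j ^ (s : ℕ)) ^ l) * X j.succ ^ l := by
          intro s
          rw [Finset.sum_eq_single j.succ]
          · simp [w, mul_pow]
          · intro b _ hb
            simp [w, Pi.single_apply, hb]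
          · intro h
            exact absurd (Finset.mem_univ _) h
        rw [Finset.sum_congr rfl (fun s _ => h2 s), ← Finset.sum_mul, ← map_sum, sum_prim_pow (hζ j) l]
        split_ifs with h
        · rfl
        · simp
    · intro i hi
      simp only [hv0 i hi]
      simp
      omega
    · intro t
      simp only [hve]

end Pool.Agent.Helper85.SC
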