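import Pool.Agent.Helper85.SC.Lower

namespace Pool.Agent.Helper85.SC

open IntermediateField

/-- subgroups of small index of the symmetric group -/
theorem alternating_le_of_index {n : ℕ} (hn : 5 ≤ n) (H : Subgroup (Equiv.Perm (Fin n)))
    (hH : H.index < n) : alternatingGroup (Fin n) ≤ H := by
  have h1 : H.normalCore ≠ ⊥ := by
    intro h0
    rw [Subgroup.normalCore_eq_ker, MonoidHom.ker_eq_bot_iff] at h0
    have h2 := Nat.card_le_card_of_injective _ h0
    rw [Nat.card_perm, Nat.card_perm, Nat.card_fin] at h2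
    have h3 : (Nat.card (Equiv.Perm (Fin n) ⧸ H)).factorial ≤ (n - 1).factorial :=
      Nat.factorial_le (by
        have : Nat.card (Equiv.Perm (Fin n) ⧸ H) = H.index := rfl
        omega)
    have h4 : (n - 1).factorial < n.factorial :=
      (Nat.factorial_lt (by omega)).2 (by omega)
    omega
  exact (alternating_le hn H.normalCore H.normalCore_normal h1).trans H.normalCore_le

/-- if `c` has fewer than `n` conjugates, the values of the Tschirnhaus transformation with
coefficients `c` are different -/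
theorem injective_of_orbit {k : Type*} {K : Type*} [Field k] [Field K] [Algebra k K]
    {F : IntermediateField k K} {n : ℕ} {y : Fin n → K} (hG : Gen F y) (hn : 5 ≤ n)
    [CharZero k] {N : ℕ} (Z : Set (Fin N → K)) (hfin : Z.Finite) (hcard : Z.ncard < n)
    (hst : ∀ g : K ≃ₐ[F] K, ∀ c ∈ Z, (fun i => g (c i)) ∈ Z)
    {c : Fin N → K} (hc : c ∈ Z) (U : Fin N → Polynomial k) (z : Fin n → K)
    (hz : ∀ i, z i = ∑ j, c j * Polynomial.aeval (y i) (U j)) (hsum : ∑ i, z i = 0)
    (hz0 : ∃ i, z i ≠ 0) : Function.Injective z := by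
  classical
  have hCK : CharZero K := charZero_of_injective_algebraMap (algebraMap k K).injective
  have horb : MulAction.orbit (K ≃ₐ[F] K) c ⊆ Z := by
    rintro _ ⟨g, rfl⟩
    exact hst g c hc
  have hofin : (MulAction.orbit (K ≃ₐ[F] K) c).Finite := hfin.subset horb
  have hidx : (MulAction.stabilizer (K ≃ₐ[F] K) c).index = (MulAction.orbit (K ≃ₐ[F] K) c).ncard :=
    MulAction.index_stabilizer _ _
  have hpos : 0 < (MulAction.orbit (K ≃ₐ[F] K) c).ncard :=
    (Set.ncard_pos hofin).2 ⟨c, MulAction.mem_orbit_self c⟩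
  have hle : (MulAction.orbit (K ≃ₐ[F] K) c).ncard ≤ Z.ncard := Set.ncard_le_ncard horb hfin
  have hsurj : Function.Surjective (piHom hG) := fun σ =>
    (hG.lift σ).imp fun g hg => piHom_eq hG hg
  set H : Subgroup (Equiv.Perm (Fin n)) :=
    (MulAction.stabilizer (K ≃ₐ[F] K) c).map (piHom hG) with hH
  have hHidx : H.index < n := by
    have h1 : H.index ∣ (MulAction.stabilizer (K ≃ₐ[F] K) c).index :=
      Subgroup.index_map_dvd _ hsurj
    have h2 := Nat.le_of_dvd (by rw [hidx]; exact hpos) h1
    omega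
  have hA := alternating_le_of_index hn H hHidx
  have hact : ∀ σ ∈ alternatingGroup (Fin n), ∃ g : K ≃ₐ[F] K, ∀ i, g (z i) = z (σ i) := by
    intro σ hσ
    obtain ⟨g, hg, hgσ⟩ := Subgroup.mem_map.1 (hA hσ)
    refine ⟨g, fun i => ?_⟩
    have hgc : ∀ j, g (c j) = c j := fun j => congrFun (MulAction.mem_stabilizer_iff.1 hg) j
    rw [hz i, hz (σ i), map_sum]
    refine Finset.sum_congr rfl fun j _ => ?_
    rw [map_mul, hgc]
    congr 1
    have h1 := Polynomial.aeval_algHom_apply ((g.restrictScalars k : K ≃ₐ[k] K) : K →ₐ[k] K) (y i) (U j)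
    have h2 : ((g.restrictScalars k : K ≃ₐ[k] K) : K →ₐ[k] K) (y i) = y (σ i) := by
      rw [← hgσ]
      exact piHom_spec hG g i
    rw [h2] at h1
    exact h1.symm
  intro i i' hii'
  by_contra hne
  have hconst : ∀ j, z j = z i := by
    intro j
    by_cases hj : j = i
    · rw [hj]
    by_cases hj' : j = i'
    · rw [hj', hii']
    obtain ⟨m, hm⟩ : ∃ m : Fin n, m ∉ ({i, i', j} : Finset (Fin n)) := by
      by_contra hcon
      push Not at hcon
      have h1 : (Finset.univ : Finset (Fin n)) ⊆ {i, i', j} := fun m _ => hcon m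
      have h2 := Finset.card_le_card h1
      have h3 : ({i, i', j} : Finset (Fin n)).card ≤ 3 := Finset.card_le_three
      rw [Finset.card_univ, Fintype.card_fin] at h2
      omega
    simp only [Finset.mem_insert, Finset.mem_singleton, not_or] at hm
    obtain ⟨hm1, hm2, hm3⟩ := hm
    have hσ : (Equiv.swap i' m * Equiv.swap i' j) ∈ alternatingGroup (Fin n) := by
      rw [Equiv.Perm.mem_alternatingGroup, map_mul, Equiv.Perm.sign_swap (Ne.symm hm2),
        Equiv.Perm.sign_swap (Ne.symm hj')]
      decide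
    obtain ⟨g, hg⟩ := hact _ hσ
    have e1 : (Equiv.swap i' m * Equiv.swap i' j) i' = j := by
      rw [Equiv.Perm.mul_apply, Equiv.swap_apply_left,
        Equiv.swap_apply_of_ne_of_ne hj' (Ne.symm hm3)]
    have e2 : (Equiv.swap i' m * Equiv.swap i' j) i = i := by
      rw [Equiv.Perm.mul_apply, Equiv.swap_apply_of_ne_of_ne hne (Ne.symm hj),
        Equiv.swap_apply_of_ne_of_ne hne (Ne.symm hm1)]
    have h1 := hg i
    have h2 := hg i'
    rw [e1] at h2
    rw [e2] at h1
    rw [← h1, ← h2, hii']
  have h1 : (n : K) * z i = 0 := by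
    rw [← hsum, Finset.sum_congr rfl fun j _ => hconst j, Finset.sum_const, Finset.card_univ,
      Fintype.card_fin, nsmul_eq_mul]
  have h2 : z i = 0 := by
    rcases mul_eq_zero.1 h1 with h | h
    · exact absurd (Nat.cast_eq_zero.1 h) (by omega)
    · exact h
  obtain ⟨j, hj⟩ := hz0
  exact hj ((hconst j).trans h2)

end Pool.Agent.Helper85.SC
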