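import Pool.Agent.Helper85.SC3.Stab

namespace Pool.Agent.Helper85.SC

open IntermediateField

open Polynomial in
/-- the polynomial with coefficients `c i` -/
private noncomputable def poly {K : Type*} [Field K] {N : ℕ} (c : Fin N → K) : K[X] :=
  ∑ i : Fin N, C (c i) * X ^ (i : ℕ)

open Polynomial in
private theorem poly_coeff {K : Type*} [Field K] {N : ℕ} (c : Fin N → K) (i : Fin N) :
    (poly c).coeff i = c i := by
  rw [poly, finsetSum_coeff, Finset.sum_eq_single i]
  · simp
  · intro j _ hj
    rw [coeff_C_mul, coeff_X_pow, if_neg, mul_zero]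
    intro h
    exact hj (Fin.ext h.symm)
  · intro h
    exact absurd (Finset.mem_univ i) h

open Polynomial in
private theorem poly_inj {K : Type*} [Field K] {N : ℕ} {c c' : Fin N → K}
    (h : poly c = poly c') : c = c' := by
  funext i
  rw [← poly_coeff c i, ← poly_coeff c' i, h]

open Polynomial in
/-- a linear form with coefficients in an infinite field separates the points of a finite set -/
private theorem exists_sep {k : Type*} {K : Type*} [Field k] [Field K] [Algebra k K]
    [Infinite k] {N : ℕ} (Z : Set (Fin N → K)) (hfin : Z.Finite) :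
    ∃ t : k, Set.InjOn (fun c : Fin N → K => (poly c).eval (algebraMap k K t)) Z := by
  classical
  let P : K[X] := ∏ q ∈ hfin.toFinset.offDiag, (poly q.1 - poly q.2)
  have hP : P ≠ 0 := by
    refine Finset.prod_ne_zero_iff.2 ?_
    intro q hq
    rw [Finset.mem_offDiag] at hq
    exact sub_ne_zero.2 fun h => hq.2.2 (poly_inj h)
  have hroots : {t : k | P.eval (algebraMap k K t) = 0}.Finite := by
    have h1 : (P.roots.toFinset : Set K).Finite := Finset.finite_toSet _
    refine (h1.preimage (f := algebraMap k K) (algebraMap k K).injective.injOn).subset ?_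
    intro t ht
    rw [Set.mem_preimage, Finset.mem_coe, Multiset.mem_toFinset, mem_roots hP]
    exact ht
  obtain ⟨t, ht⟩ := hroots.infinite_compl.nonempty
  refine ⟨t, ?_⟩
  intro c hc c' hc' h
  by_contra hne
  apply ht
  change P.eval (algebraMap k K t) = 0
  rw [eval_prod]
  refine Finset.prod_eq_zero (i := (c, c')) ?_ ?_
  · rw [Finset.mem_offDiag, Set.Finite.mem_toFinset, Set.Finite.mem_toFinset]
    exact ⟨hc, hc', hne⟩
  · rw [eval_sub, sub_eq_zero]
    exact h

/-- The coordinates of the points of a finite Galois stable set with at most `d` points,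
`d >= 5`, lie in the second layer for `r = d - 3`. -/
theorem mem_next_of_finite {k : Type*} {K : Type*} [Field k] [Field K] [Algebra k K]
    [IsAlgClosed K] [CharZero k] {F : IntermediateField k K}
    (hF : Algebra.IsAlgebraic F K) {d : ℕ} (hd : 5 ≤ d) {N : ℕ} (Z : Set (Fin N → K))
    (hfin : Z.Finite) (hcard : Z.ncard ≤ d)
    (hst : ∀ g : K ≃ₐ[F] K, ∀ c ∈ Z, (fun i => g (c i)) ∈ Z)
    {c : Fin N → K} (hc : c ∈ Z) (i : Fin N) : c i ∈ next k (d - 3) F := by
  classical
  obtain ⟨t, ht⟩ := exists_sep (k := k) Z hfin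
  set η : (Fin N → K) → K := fun c => (poly c).eval (algebraMap k K t) with hη
  have hgk : ∀ (g : K ≃ₐ[F] K) (a : k), g (algebraMap k K a) = algebraMap k K a := by
    intro g a
    have h1 : algebraMap k K a = algebraMap F K (algebraMap k F a) :=
      IsScalarTower.algebraMap_apply k F K a
    rw [h1]
    exact g.commutes _
  have hgη : ∀ (g : K ≃ₐ[F] K) (c : Fin N → K), g (η c) = η (fun i => g (c i)) := by
    intro g c
    simp only [hη, poly, Polynomial.eval_finsetSum, Polynomial.eval_mul, Polynomial.eval_C,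
      Polynomial.eval_pow, Polynomial.eval_X, map_sum, map_mul, map_pow, hgk]
  have hY : (η '' Z).Finite := hfin.image _
  have hYcard : (η '' Z).ncard ≤ d := (Set.ncard_image_le hfin).trans hcard
  have hinf : (η '' Z ∪ Set.range (algebraMap k K)).Infinite :=
    (Set.infinite_range_of_injective (algebraMap k K).injective).mono Set.subset_union_right
  obtain ⟨Y', hYY', hY', hcardY'⟩ :=
    hinf.exists_superset_ncard_eq Set.subset_union_left hY hYcard
  have hfinY' : Y'.Finite := Set.finite_of_ncard_ne_zero (by omega)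
  have : Finite Y' := hfinY'
  have hcY : Nat.card Y' = d := hcardY'
  let e : Y' ≃ Fin d := Finite.equivFinOfCardEq hcY
  let θ : Fin d → K := fun j => (e.symm j : K)
  have hθ : Function.Injective θ := Subtype.val_injective.comp e.symm.injective
  have hmem : ∀ y ∈ Y', ∃ j, θ j = y := fun y hy => ⟨e ⟨y, hy⟩, by simp [θ]⟩
  have hstθ : ∀ (g : K ≃ₐ[F] K) (i : Fin d), ∃ j, g (θ i) = θ j := by
    intro g i
    have h1 : θ i ∈ Y' := (e.symm i).2
    have h2 : g (θ i) ∈ Y' := by
      rcases hY' h1 with ⟨c', hc', hc''⟩ | ⟨a, ha⟩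
      · rw [← hc'', hgη]
        exact hYY' ⟨_, hst g c' hc', rfl⟩
      · rw [← ha, hgk, ha]
        exact h1
    obtain ⟨j, hj⟩ := hmem _ h2
    exact ⟨j, hj.symm⟩
  have hηmem : ∀ c ∈ Z, η c ∈ next k (d - 3) F := by
    intro c hc
    obtain ⟨j, hj⟩ := hmem _ (hYY' ⟨c, hc, rfl⟩)
    rw [← hj]
    exact mem_next_of_stable hF hd θ hθ hstθ j
  refine mem_of_fixed hF (le_next (by omega) F) ?_
  intro g hg
  have h1 : η (fun i => g (c i)) = η c := by
    rw [← hgη]
    exact hg _ (hηmem c hc)
  have h2 := ht (hst g c hc) hc h1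
  exact congrFun h2 i

end Pool.Agent.Helper85.SC
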