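import Mathlib

namespace Pool.Agent.Helper85.SC

open MvPolynomial

theorem Span.mul_monomial_mem {B : Type*} [CommRing B] {σ : Type*} (e : σ →₀ ℕ)
    (Q : MvPolynomial σ B) (T : Submodule B (MvPolynomial σ B))
    (h : ∀ f ∈ Q.support, Q.coeff f • (monomial (e + f) (1 : B)) ∈ T) :
    monomial e 1 * Q ∈ T := by
  rw [Q.as_sum, Finset.mul_sum]
  refine Submodule.sum_mem _ fun f hf => ?_
  have h1 := h f hf
  rw [smul_monomial, smul_eq_mul, mul_one] at h1
  rwa [monomial_mul, one_mul]

theorem Span.step {B : Type*} [CommRing B] (I : Ideal B) {m : ℕ}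
    (P : Fin m → MvPolynomial (Fin (m + 1)) B) (u : Fin m → Bˣ)
    (hP : ∀ j, (P j).IsHomogeneous ((j : ℕ) + 1))
    (hred : ∀ j : Fin m, ∃ G H : MvPolynomial (Fin (m + 1)) B,
      (∀ i ∈ G.vars, i < j.succ) ∧ (∀ d, H.coeff d ∈ I) ∧
      P j = C ((u j : Bˣ) : B) * X j.succ ^ ((j : ℕ) + 1) + G + H) (N : ℕ) (n : ℕ) :
    ∀ e : Fin (m + 1) →₀ ℕ, e.degree = N → Finsupp.weight (fun i : Fin (m + 1) => (i : ℕ)) e = n →
      (monomial e (1 : B)) ∈
        (Submodule.span B {q : MvPolynomial (Fin (m + 1)) B | ∃ e : Fin (m + 1) →₀ ℕ,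
          e.degree = N ∧ (∀ j : Fin m, e j.succ ≤ j) ∧ q = monomial e 1} ⊔
          (Ideal.span (Set.range P)).restrictScalars B) ⊔
          I • homogeneousSubmodule (Fin (m + 1)) B N := by
  set L : Submodule B (MvPolynomial (Fin (m + 1)) B) :=
    Submodule.span B {q : MvPolynomial (Fin (m + 1)) B | ∃ e : Fin (m + 1) →₀ ℕ,
      e.degree = N ∧ (∀ j : Fin m, e j.succ ≤ j) ∧ q = monomial e 1} ⊔
      (Ideal.span (Set.range P)).restrictScalars B with hL
  induction n using Nat.strong_induction_on with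
  | _ n ih =>
    intro e he hw
    by_cases hstd : ∀ j : Fin m, e j.succ ≤ j
    · exact Submodule.mem_sup_left (Submodule.mem_sup_left (Submodule.subset_span ⟨e, he, hstd, rfl⟩))
    · push Not at hstd
      obtain ⟨j, hj⟩ := hstd
      obtain ⟨G, H, hG, hH, hPj⟩ := hred j
      set s : Fin (m + 1) →₀ ℕ := Finsupp.single j.succ ((j : ℕ) + 1) with hs
      have hsle : s ≤ e := by
        rw [hs, Finsupp.single_le_iff]
        omega
      obtain ⟨e', rfl⟩ : ∃ e', e = e' + s := ⟨e - s, (tsub_add_cancel_of_le hsle).symm⟩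
      have hdeg : e'.degree + ((j : ℕ) + 1) = N := by
        rw [← he, map_add, hs, Finsupp.degree_single]
      set G' := homogeneousComponent ((j : ℕ) + 1) G with hG'
      set H' := homogeneousComponent ((j : ℕ) + 1) H with hH'
      have hPj' : P j = C ((u j : Bˣ) : B) * X j.succ ^ ((j : ℕ) + 1) + G' + H' := by
        have h1 := congrArg (homogeneousComponent ((j : ℕ) + 1)) hPj
        rw [homogeneousComponent_eq_self (hP j), map_add, map_add] at h1
        rw [homogeneousComponent_eq_self (isHomogeneous_C_mul_X_pow _ _ _)] at h1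
        exact h1
      have hX : (X j.succ : MvPolynomial (Fin (m + 1)) B) ^ ((j : ℕ) + 1) =
          C (((u j)⁻¹ : Bˣ) : B) * (P j - G' - H') := by
        rw [hPj']
        have h1 : (C (((u j)⁻¹ : Bˣ) : B) : MvPolynomial (Fin (m + 1)) B) *
            C ((u j : Bˣ) : B) = 1 := by
          rw [← C_mul, Units.inv_mul, C_1]
        linear_combination (-(X j.succ : MvPolynomial (Fin (m + 1)) B) ^ ((j : ℕ) + 1)) * h1
      have hmon : (monomial (e' + s) (1 : B)) =
          ((((u j)⁻¹ : Bˣ) : B)) • (monomial e' 1 * P j - monomial e' 1 * G' -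
            monomial e' 1 * H') := by
        have h1 : (monomial (e' + s) (1 : B)) = monomial e' 1 * X j.succ ^ ((j : ℕ) + 1) := by
          rw [X_pow_eq_monomial, monomial_mul, one_mul]
        rw [h1, hX, smul_eq_C_mul]
        ring
      rw [hmon]
      refine Submodule.smul_mem _ _ (Submodule.sub_mem _ (Submodule.sub_mem _ ?_ ?_) ?_)
      · refine Submodule.mem_sup_left (Submodule.mem_sup_right ?_)
        exact Ideal.mul_mem_left _ _ (Ideal.subset_span ⟨j, rfl⟩)
      · refine Span.mul_monomial_mem e' G' _ fun f hf => Submodule.smul_mem _ _ ?_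
        rw [hG', support_homogeneousComponent, Finset.mem_filter] at hf
        obtain ⟨hf1, hf2⟩ := hf
        have hdf : f.degree = (j : ℕ) + 1 := hf2
        refine ih (Finsupp.weight (fun i : Fin (m + 1) => (i : ℕ)) (e' + f)) ?_ (e' + f) ?_ rfl
        · rw [← hw, map_add, map_add, add_lt_add_iff_left, hs, Finsupp.weight_single]
          have h1 : Finsupp.weight (fun i : Fin (m + 1) => (i : ℕ)) f ≤ (j : ℕ) * f.degree := by
            rw [Finsupp.weight_apply, Finsupp.degree_apply, Finset.mul_sum]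
            refine Finset.sum_le_sum fun i hi => ?_
            have h2 : i < j.succ := hG i ((mem_vars_iff_mem_support i).2 ⟨f, hf1, hi⟩)
            have h3 : (i : ℕ) ≤ j := by
              have := Fin.lt_def.1 h2
              rw [Fin.val_succ] at this
              omega
            show f i • (i : ℕ) ≤ (j : ℕ) * f i
            rw [smul_eq_mul, mul_comm]
            exact Nat.mul_le_mul_right _ h3
          rw [hdf] at h1
          rw [Fin.val_succ, smul_eq_mul]
          have : (j : ℕ) * ((j : ℕ) + 1) < ((j : ℕ) + 1) * ((j : ℕ) + 1) := by nlinarith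
          omega
        · rw [map_add, hdf, hdeg]
      · refine Span.mul_monomial_mem e' H' _ fun f hf => ?_
        refine Submodule.mem_sup_right (Submodule.smul_mem_smul ?_ ?_)
        · rw [hH', coeff_homogeneousComponent]
          split_ifs
          · exact hH f
          · exact I.zero_mem
        · rw [hH', support_homogeneousComponent, Finset.mem_filter] at hf
          obtain ⟨hf1, hf2⟩ := hf
          have hdf : f.degree = (j : ℕ) + 1 := hf2
          rw [mem_homogeneousSubmodule]
          exact isHomogeneous_monomial _ (by rw [map_add, hdf, hdeg])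

/-- Nakayama: if modulo the ideal `I` of `B` the forms `P j` of degree `j + 1`, `j < m`, are
triangular with leading term a unit times `X (j+1) ^ (j+1)`, then up to an element `b` of
`1 + I` the forms of degree `N` are spanned over `B`, modulo the ideal of the `P j`, by the
monomials `X^e` of degree `N` with `e (j+1) <= j` for all `j < m`. -/
theorem span_of_reduction {B : Type*} [CommRing B] (I : Ideal B) {m : ℕ}
    (P : Fin m → MvPolynomial (Fin (m + 1)) B) (u : Fin m → Bˣ)
    (hP : ∀ j, (P j).IsHomogeneous ((j : ℕ) + 1))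
    (hred : ∀ j : Fin m, ∃ G H : MvPolynomial (Fin (m + 1)) B,
      (∀ i ∈ G.vars, i < j.succ) ∧ (∀ d, H.coeff d ∈ I) ∧
      P j = C ((u j : Bˣ) : B) * X j.succ ^ ((j : ℕ) + 1) + G + H) (N : ℕ) :
    ∃ b : B, b - 1 ∈ I ∧ ∀ p : MvPolynomial (Fin (m + 1)) B, p.IsHomogeneous N →
      ∃ q ∈ Submodule.span B {q : MvPolynomial (Fin (m + 1)) B | ∃ e : Fin (m + 1) →₀ ℕ,
          e.degree = N ∧ (∀ j : Fin m, e j.succ ≤ j) ∧ q = monomial e 1},
        C b * p - q ∈ Ideal.span (Set.range P) := by
  have hle : homogeneousSubmodule (Fin (m + 1)) B N ≤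
      (Submodule.span B {q : MvPolynomial (Fin (m + 1)) B | ∃ e : Fin (m + 1) →₀ ℕ,
          e.degree = N ∧ (∀ j : Fin m, e j.succ ≤ j) ∧ q = monomial e 1} ⊔
          (Ideal.span (Set.range P)).restrictScalars B) ⊔
          I • homogeneousSubmodule (Fin (m + 1)) B N := by
    intro p hp
    rw [mem_homogeneousSubmodule] at hp
    rw [← one_mul p]
    refine Span.mul_monomial_mem 0 p _ fun f hf => Submodule.smul_mem _ _ ?_
    rw [zero_add]
    refine Span.step I P u hP hred N _ f ?_ rfl
    by_contra hne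
    exact (mem_support_iff.1 hf) (hp.coeff_eq_zero hne)
  obtain ⟨b, hb, hbM⟩ := Submodule.exists_sub_one_mem_and_smul_le_of_fg_of_le_sup
    (homogeneousSubmodule_fg (Fin (m + 1)) B N) le_rfl hle
  refine ⟨b, hb, fun p hp => ?_⟩
  have h1 : b • p ∈ _ := hbM (Submodule.smul_mem_pointwise_smul p b _
    ((mem_homogeneousSubmodule N p).2 hp))
  obtain ⟨q, hq, r, hr, hqr⟩ := Submodule.mem_sup.1 h1
  refine ⟨q, hq, ?_⟩
  have h2 : C b * p - q = r := by
    rw [← smul_eq_C_mul, ← hqr]
    ring
  rw [h2]
  exact hr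

end Pool.Agent.Helper85.SC
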