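import Pool.Agent.Helper85.SC.Upper

namespace Pool.Agent.Helper85.SC

open IntermediateField

section Cross

variable {k : Type*} {K : Type*} [Field k] [Field K] [Algebra k K]

/-- the cross ratio -/
private noncomputable def cross {n : ℕ} (y : Fin n → K) (a b c d : Fin n) : K :=
  ((y a - y b) * (y c - y d)) / ((y a - y d) * (y c - y b))

/-- cross ratios lie in a field generated by `n - 3` elements -/
private theorem cross_mem {n : ℕ} (hn : 5 ≤ n) {y : Fin n → K} (hy : Function.Injective y) :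
    ∃ w : Fin (n - 3) → K, ∀ a b c d, cross y a b c d ∈ adjoin k (Set.range w) := by
  classical
  obtain ⟨o, ho⟩ : ∃ o : Fin n, o = ⟨0, by omega⟩ := ⟨_, rfl⟩
  obtain ⟨e, he⟩ : ∃ e : Fin n, e = ⟨1, by omega⟩ := ⟨_, rfl⟩
  obtain ⟨f, hf⟩ : ∃ f : Fin n, f = ⟨2, by omega⟩ := ⟨_, rfl⟩
  refine ⟨fun j => cross y ⟨j + 3, by omega⟩ o e f, ?_⟩
  set w : Fin (n - 3) → K := fun j => cross y ⟨j + 3, by omega⟩ o e f with hw
  set L := adjoin k (Set.range w) with hL
  have hoe : y o ≠ y e := fun h => by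
    have := hy h
    rw [ho, he, Fin.ext_iff] at this
    simp at this
  have hof : y o ≠ y f := fun h => by
    have := hy h
    rw [ho, hf, Fin.ext_iff] at this
    simp at this
  have hef : y e ≠ y f := fun h => by
    have := hy h
    rw [he, hf, Fin.ext_iff] at this
    simp at this
  have h1 : y e - y o ≠ 0 := sub_ne_zero.2 hoe.symm
  have h2 : y e - y f ≠ 0 := sub_ne_zero.2 hef
  have h3 : y o - y f ≠ 0 := sub_ne_zero.2 hof
  obtain ⟨p, hp⟩ : ∃ p : Fin n → K, p = fun i => if i = f then 1 else cross y i o e f := ⟨_, rfl⟩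
  obtain ⟨q, hq⟩ : ∃ q : Fin n → K, q = fun i => if i = f then 0 else 1 := ⟨_, rfl⟩
  obtain ⟨s, hs⟩ : ∃ s : Fin n → K, s = fun i =>
      if i = f then -((y e - y f) * (y o - y f)) / (y e - y o) else y i - y f := ⟨_, rfl⟩
  obtain ⟨κ, hκ⟩ : ∃ κ : K, κ = (y e - y o) / ((y e - y f) * (y o - y f)) := ⟨_, rfl⟩
  have hpL : ∀ i, p i ∈ L := by
    intro i
    rw [hp]
    by_cases hi : i = f
    · simp only [hi, if_true]
      exact one_mem _
    · simp only [hi, if_false]
      rcases Nat.lt_or_ge i.val 3 with h | h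
      · rcases (by omega : i.val = 0 ∨ i.val = 1 ∨ i.val = 2) with h' | h' | h'
        · have : i = o := by rw [ho]; exact Fin.ext h'
          rw [this, cross, sub_self, zero_mul, zero_div]
          exact zero_mem _
        · have : i = e := by rw [he]; exact Fin.ext h'
          rw [this, cross, mul_comm, div_self (mul_ne_zero h2 h1)]
          exact one_mem _
        · exact absurd (by rw [hf]; exact Fin.ext h') hi
      · refine subset_adjoin k _ ⟨⟨i.val - 3, by omega⟩, ?_⟩
        rw [hw]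
        simp only
        congr 1
        apply Fin.ext
        simp only
        omega
  have hqL : ∀ i, q i ∈ L := by
    intro i
    rw [hq]
    by_cases hi : i = f
    · simp only [hi, if_true]
      exact zero_mem _
    · simp only [hi, if_false]
      exact one_mem _
  have hs0 : ∀ i, s i ≠ 0 := by
    intro i
    rw [hs]
    by_cases hi : i = f
    · simp only [hi, if_true]
      exact div_ne_zero (neg_ne_zero.2 (mul_ne_zero h2 h3)) h1
    · simp only [hi, if_false]
      exact sub_ne_zero.2 fun h => hi (hy h)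
  have hκ0 : κ ≠ 0 := by
    rw [hκ]
    exact div_ne_zero h1 (mul_ne_zero h2 h3)
  have hd : ∀ a b, y a - y b = κ * s a * s b * (p a * q b - p b * q a) := by
    intro a b
    rw [hκ, hs, hp, hq]
    by_cases ha : a = f
    · by_cases hb : b = f
      · simp [ha, hb]
      · have hb' : y b - y f ≠ 0 := sub_ne_zero.2 fun h => hb (hy h)
        simp only [ha, hb, if_true, if_false]
        field_simp
        ring
    · have ha' : y a - y f ≠ 0 := sub_ne_zero.2 fun h => ha (hy h)
      by_cases hb : b = f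
      · simp only [ha, hb, if_true, if_false]
        field_simp
        ring
      · have hb' : y b - y f ≠ 0 := sub_ne_zero.2 fun h => hb (hy h)
        simp only [ha, hb, if_false, cross]
        field_simp
        ring
  intro a b c d
  have h4 : cross y a b c d = ((p a * q b - p b * q a) * (p c * q d - p d * q c)) /
      ((p a * q d - p d * q a) * (p c * q b - p b * q c)) := by
    unfold cross
    rw [hd a b, hd c d, hd a d, hd c b]
    rw [show κ * s a * s b * (p a * q b - p b * q a) * (κ * s c * s d * (p c * q d - p d * q c)) =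
      (κ * κ * s a * s b * s c * s d) * ((p a * q b - p b * q a) * (p c * q d - p d * q c)) by ring,
      show κ * s a * s d * (p a * q d - p d * q a) * (κ * s c * s b * (p c * q b - p b * q c)) =
      (κ * κ * s a * s b * s c * s d) * ((p a * q d - p d * q a) * (p c * q b - p b * q c)) by ring]
    exact mul_div_mul_left _ _ (mul_ne_zero (mul_ne_zero (mul_ne_zero (mul_ne_zero
      (mul_ne_zero hκ0 hκ0) (hs0 a)) (hs0 b)) (hs0 c)) (hs0 d))
  rw [h4]
  have hdet : ∀ a b, p a * q b - p b * q a ∈ L := fun a b =>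
    sub_mem (mul_mem (hpL a) (hqL b)) (mul_mem (hpL b) (hqL a))
  exact div_mem (mul_mem (hdet a b) (hdet c d)) (mul_mem (hdet a d) (hdet c b))

private theorem cross_map {F : IntermediateField k K} {n : ℕ} {y : Fin n → K}
    {g : K ≃ₐ[F] K} {σ : Fin n → Fin n} (h : ∀ i, g (y i) = y (σ i)) (a b c d : Fin n) :
    g (cross y a b c d) = cross y (σ a) (σ b) (σ c) (σ d) := by
  unfold cross
  rw [map_div₀, map_mul, map_mul, map_sub, map_sub, map_sub, map_sub, h, h, h, h]

private theorem mem_of_sep [IsAlgClosed K] [CharZero k] {F : IntermediateField k K}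
    (hF : Algebra.IsAlgebraic F K) {n : ℕ} {y : Fin n → K} (hn : 5 ≤ n)
    (hy : Function.Injective y)
    (hst : ∀ g : K ≃ₐ[F] K, ∃ σ : Fin n → Fin n, ∀ i, g (y i) = y (σ i)) {z : K}
    (hz : ∀ g : K ≃ₐ[F] K, (∀ a b c d, g (cross y a b c d) = cross y a b c d) → g z = z) :
    z ∈ next k (n - 3) F := by
  classical
  obtain ⟨w, hw⟩ := cross_mem (k := k) hn hy
  let S : Finset K := Finset.univ.image fun v : Fin n × Fin n × Fin n × Fin n =>
    cross y v.1 v.2.1 v.2.2.1 v.2.2.2
  have hS : ∀ a b c d, cross y a b c d ∈ S := fun a b c d =>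
    Finset.mem_image.2 ⟨(a, b, c, d), Finset.mem_univ _, rfl⟩
  have hSg : ∀ g : K ≃ₐ[F] K, S.image g = S := by
    intro g
    apply Finset.eq_of_subset_of_card_le
    · intro z hz
      obtain ⟨x, hx, rfl⟩ := Finset.mem_image.1 hz
      obtain ⟨v, _, rfl⟩ := Finset.mem_image.1 hx
      obtain ⟨σ, hσ⟩ := hst g
      rw [cross_map (g := g) hσ]
      exact hS _ _ _ _
    · rw [Finset.card_image_of_injective _ g.injective]
  let P : Polynomial K := ∏ x ∈ S, (Polynomial.X - Polynomial.C x)
  have hPfix : ∀ (g : K ≃ₐ[F] K) (i : ℕ), g (P.coeff i) = P.coeff i := by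
    intro g i
    have h1 : P.map (g : K →+* K) = P := by
      simp only [P]
      rw [Polynomial.map_prod]
      simp only [Polynomial.map_sub, Polynomial.map_X, Polynomial.map_C]
      conv_rhs => rw [← hSg g]
      rw [Finset.prod_image (fun a _ b _ h => g.injective h)]
      rfl
    have h2 := congrArg (fun p => Polynomial.coeff p i) h1
    simp only [Polynomial.coeff_map] at h2
    exact h2
  have hPF : ∀ i, P.coeff i ∈ F := fun i => mem_base_of_fixed hF fun g => hPfix g i
  have hPL : ∀ i, P.coeff i ∈ adjoin k (Set.range w) := by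
    have h1 : P ∈ Polynomial.lifts (algebraMap (adjoin k (Set.range w)) K) := by
      refine prod_mem fun x hx => ?_
      obtain ⟨v, _, rfl⟩ := Finset.mem_image.1 hx
      rw [sub_eq_add_neg, ← Polynomial.C_neg]
      exact add_mem (Polynomial.X_mem_lifts _)
        (Polynomial.C'_mem_lifts ⟨⟨_, neg_mem (hw _ _ _ _)⟩, rfl⟩)
    intro i
    obtain ⟨z, hz⟩ := (Polynomial.lifts_iff_coeff_lifts _).1 h1 i
    rw [← hz]
    exact z.2
  let C0 : Finset K := (Finset.range (P.natDegree + 1)).image P.coeff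
  have hC0 : ∀ z ∈ C0, ∃ i, P.coeff i = z := by
    intro z hz
    obtain ⟨i, _, hi⟩ := Finset.mem_image.1 hz
    exact ⟨i, hi⟩
  obtain ⟨I, hI⟩ := (AlgebraicIndependent.matroid k K).exists_isBasis (C0 : Set K)
    (by simp [AlgebraicIndependent.matroid_e])
  have hIfin : I.Finite := C0.finite_toSet.subset hI.subset
  have hind := (AlgebraicIndependent.matroid_indep_iff).1 hI.indep
  obtain ⟨m, ⟨em⟩⟩ : ∃ m : ℕ, Nonempty (I ≃ Fin m) := by
    have := hIfin.fintype
    exact ⟨Fintype.card I, ⟨Fintype.equivFin I⟩⟩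
  let c : Fin m → K := fun i => ((em.symm i : I) : K)
  have hc : AlgebraicIndependent k c := hind.comp em.symm em.symm.injective
  have hcI : ∀ i, c i ∈ I := fun i => (em.symm i).2
  have hcc : ∀ i, ∃ j, P.coeff j = c i := fun i => hC0 _ (hI.subset (hcI i))
  have hm : m ≤ n - 3 := by
    refine card_le_of_mem_br (t := w) hc fun a => ?_
    obtain ⟨j, hj⟩ := hcc a
    rw [mem_br, ← hj]
    exact isAlgebraic_algebraMap (⟨P.coeff j, hPL j⟩ : adjoin k (Set.range w))
  let t : Fin (n - 3) → K := fun i => if h : i.val < m then c ⟨i, h⟩ else 0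
  have htF : ∀ i, t i ∈ F := by
    intro i
    simp only [t]
    split_ifs with h
    · obtain ⟨j, hj⟩ := hcc ⟨i, h⟩
      rw [← hj]
      exact hPF j
    · exact zero_mem _
  have hIt : I ⊆ Set.range t := by
    intro z hz
    refine ⟨⟨(em ⟨z, hz⟩).val, lt_of_lt_of_le (em ⟨z, hz⟩).2 hm⟩, ?_⟩
    simp [t, c]
  have hcoef : ∀ i, P.coeff i ∈ br k t := by
    intro i
    rcases Nat.lt_or_ge P.natDegree i with h | h
    · rw [Polynomial.coeff_eq_zero_of_natDegree_lt h]
      exact zero_mem _
    · have h1 : P.coeff i ∈ (C0 : Set K) :=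
        Finset.mem_coe.2 (Finset.mem_image.2 ⟨i, Finset.mem_range.2 (by omega), rfl⟩)
      have h2 := hI.subset_closure h1
      rw [AlgebraicIndependent.matroid_closure_eq] at h2
      have h3 : IsAlgebraic (Algebra.adjoin k I) (P.coeff i) := h2
      rw [mem_br]
      obtain ⟨p, hp0, hp⟩ := h3
      have hle : Algebra.adjoin k I ≤ (adjoin k (Set.range t)).toSubalgebra :=
        Algebra.adjoin_le (hIt.trans (subset_adjoin k _))
      refine ⟨p.map (Subalgebra.inclusion hle).toRingHom, ?_, ?_⟩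
      · rwa [Polynomial.map_ne_zero_iff (Subalgebra.inclusion_injective hle)]
      · rw [Polynomial.aeval_def, Polynomial.eval₂_map]
        exact hp
  have hXbr : ∀ a b c d, cross y a b c d ∈ br k t := by
    intro a b c d
    rw [mem_br]
    have h1 : P ∈ Polynomial.lifts
        (algebraMap (algebraicClosure (adjoin k (Set.range t)) K) K) := by
      rw [Polynomial.lifts_iff_coeff_lifts]
      intro i
      exact ⟨⟨P.coeff i, hcoef i⟩, rfl⟩
    obtain ⟨q, hq⟩ := (Polynomial.mem_lifts P).1 h1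
    have hP0 : P ≠ 0 := (Polynomial.monic_prod_of_monic _ _
      fun x _ => Polynomial.monic_X_sub_C x).ne_zero
    have h2 : IsAlgebraic (algebraicClosure (adjoin k (Set.range t)) K) (cross y a b c d) := by
      refine ⟨q, ?_, ?_⟩
      · rintro rfl
        apply hP0
        rw [← hq, Polynomial.map_zero]
      · rw [Polynomial.aeval_def, Polynomial.eval₂_eq_eval_map, hq]
        simp only [P]
        rw [Polynomial.eval_prod]
        exact Finset.prod_eq_zero (hS a b c d) (by simp)
    exact h2.restrictScalars (adjoin k (Set.range t))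
  have hbn : br k t ≤ next k (n - 3) F := br_le_next t htF
  exact mem_of_fixed hF (le_next (by omega) F) fun g hg =>
    hz g fun a b c d => hg _ (hbn (hXbr a b c d))

/-- the difference of the cross ratios of `(a,b,c,e)` and of its image, without denominators -/
private def DD {R : Type*} [CommRing R] {d : ℕ} (Y : Fin d → R) (s : Equiv.Perm (Fin d))
    (v : Fin d × Fin d × Fin d × Fin d) : R :=
  (Y v.1 - Y v.2.1) * (Y v.2.2.1 - Y v.2.2.2) *
      ((Y (s v.1) - Y (s v.2.2.2)) * (Y (s v.2.2.1) - Y (s v.2.1))) -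
    (Y (s v.1) - Y (s v.2.1)) * (Y (s v.2.2.1) - Y (s v.2.2.2)) *
      ((Y v.1 - Y v.2.2.2) * (Y v.2.2.1 - Y v.2.1))

private theorem exists_point [CharZero K] {d : ℕ} (hd : 5 ≤ d) (s : Equiv.Perm (Fin d))
    (hs : s ≠ 1) : ∃ v : Fin d × Fin d × Fin d × Fin d, v.1 ≠ v.2.2.2 ∧ v.2.2.1 ≠ v.2.1 ∧
      ∃ Y : Fin d → K, DD Y s v ≠ 0 := by
  classical
  obtain ⟨x, hx⟩ : ∃ x, s x ≠ x := by
    by_contra hcon
    push Not at hcon
    exact hs (Equiv.ext hcon)
  have hcard : 2 < (Finset.univ \ ({x, s x} : Finset (Fin d))).card := by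
    have h1 := Finset.le_card_sdiff ({x, s x} : Finset (Fin d)) Finset.univ
    have h2 : ({x, s x} : Finset (Fin d)).card ≤ 2 := Finset.card_le_two
    rw [Finset.card_univ, Fintype.card_fin] at h1
    omega
  obtain ⟨b, hb, c, hc, e, he, hbc, hbe, hce⟩ := Finset.two_lt_card.1 hcard
  simp only [Finset.mem_sdiff, Finset.mem_univ, true_and, Finset.mem_insert,
    Finset.mem_singleton, not_or] at hb hc he
  refine ⟨(x, b, c, e), fun h => he.1 h.symm, fun h => hbc h.symm,
    fun i => if i = s x then ((s e : Fin d).val : K) else (i.val : K), ?_⟩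
  have hne : ∀ {i j : Fin d}, i ≠ j → ((i.val : ℕ) : K) - ((j.val : ℕ) : K) ≠ 0 := by
    intro i j hij h
    exact hij (Fin.ext (Nat.cast_injective (sub_eq_zero.1 h)))
  have hsb : s b ≠ s x := fun h => hb.1 (s.injective h)
  have hsc : s c ≠ s x := fun h => hc.1 (s.injective h)
  have hse : s e ≠ s x := fun h => he.1 (s.injective h)
  simp only [DD, if_true, if_neg hsb, if_neg hsc, if_neg hse, if_neg hx.symm, if_neg hb.2,
    if_neg hc.2, if_neg he.2, sub_self, zero_mul, mul_zero, zero_sub]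
  refine neg_ne_zero.2 (mul_ne_zero (mul_ne_zero (hne ?_) (hne ?_)) (mul_ne_zero (hne ?_) (hne ?_)))
  · exact fun h => hbe (s.injective h).symm
  · exact fun h => hce (s.injective h)
  · exact fun h => he.1 h.symm
  · exact fun h => hbc h.symm

private theorem exists_q [CharZero k] {F : IntermediateField k K} {d : ℕ} (hd : 5 ≤ d)
    {θ : Fin d → K} (hθ : Function.Injective θ) : ∃ q : Fin d → K, (∀ j, q j ∈ F) ∧
      Function.Injective (fun i => ∑ j : Fin d, q j * θ i ^ (j : ℕ)) ∧
      ∀ s : Equiv.Perm (Fin d), s ≠ 1 → ∃ v : Fin d × Fin d × Fin d × Fin d, v.1 ≠ v.2.2.2 ∧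
        v.2.2.1 ≠ v.2.1 ∧ DD (fun i => ∑ j : Fin d, q j * θ i ^ (j : ℕ)) s v ≠ 0 := by
  classical
  have hK : CharZero K := charZero_of_injective_algebraMap (algebraMap k K).injective
  -- every family of values is attained
  have hatt : ∀ Y : Fin d → K, ∃ q : Fin d → K, (fun i => ∑ j : Fin d, q j * θ i ^ (j : ℕ)) = Y := by
    intro Y
    refine ⟨fun j => (Lagrange.interpolate Finset.univ θ Y).coeff j, ?_⟩
    funext i
    have h1 := Lagrange.eval_interpolate_at_node (s := Finset.univ) (v := θ) Y hθ.injOn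
      (Finset.mem_univ i)
    have h2 : (Lagrange.interpolate Finset.univ θ Y).natDegree < d := by
      rcases eq_or_ne (Lagrange.interpolate Finset.univ θ Y) 0 with h0 | h0
      · rw [h0, Polynomial.natDegree_zero]
        omega
      · rw [Polynomial.natDegree_lt_iff_degree_lt h0]
        have := Lagrange.degree_interpolate_lt (s := Finset.univ) (v := θ) Y hθ.injOn
        rwa [Finset.card_univ, Fintype.card_fin] at this
    rw [Polynomial.eval_eq_sum_range' h2] at h1
    rw [← h1, Finset.sum_range]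
  let Θ : Fin d → MvPolynomial (Fin d) K := fun i =>
    ∑ j : Fin d, MvPolynomial.X j * MvPolynomial.C (θ i ^ (j : ℕ))
  have hΘ : ∀ (q : Fin d → K) (i : Fin d), MvPolynomial.eval q (Θ i) =
      ∑ j : Fin d, q j * θ i ^ (j : ℕ) := by
    intro q i
    simp [Θ]
  have hDD : ∀ (q : Fin d → K) (s : Equiv.Perm (Fin d)) v, MvPolynomial.eval q (DD Θ s v) =
      DD (fun i => ∑ j : Fin d, q j * θ i ^ (j : ℕ)) s v := by
    intro q s v
    simp only [DD, map_sub, map_mul, hΘ]
  have hpt : ∀ s : Equiv.Perm (Fin d), ∃ v : Fin d × Fin d × Fin d × Fin d, s ≠ 1 →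
      v.1 ≠ v.2.2.2 ∧ v.2.2.1 ≠ v.2.1 ∧ ∃ Y : Fin d → K, DD Y s v ≠ 0 := by
    intro s
    by_cases hs : s = 1
    · exact ⟨(⟨0, by omega⟩, ⟨0, by omega⟩, ⟨0, by omega⟩, ⟨0, by omega⟩), fun h => absurd hs h⟩
    · obtain ⟨v, hv⟩ := exists_point (K := K) hd s hs
      exact ⟨v, fun _ => hv⟩
  choose v hv using hpt
  let A : MvPolynomial (Fin d) K :=
    ∏ p ∈ Finset.univ.filter (fun p : Fin d × Fin d => p.1 ≠ p.2), (Θ p.1 - Θ p.2)
  let B : MvPolynomial (Fin d) K :=
    ∏ s ∈ Finset.univ.filter (fun s : Equiv.Perm (Fin d) => s ≠ 1), DD Θ s (v s)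
  have hA : A ≠ 0 := by
    refine Finset.prod_ne_zero_iff.2 fun p hp h => ?_
    have hp' := (Finset.mem_filter.1 hp).2
    obtain ⟨q, hq⟩ := hatt (fun i => ((i.val : ℕ) : K))
    have h1 := congrArg (MvPolynomial.eval q) h
    rw [map_sub, hΘ, hΘ, map_zero] at h1
    have h2 : ∑ j : Fin d, q j * θ p.1 ^ (j : ℕ) = ((p.1.val : ℕ) : K) := congrFun hq p.1
    have h3 : ∑ j : Fin d, q j * θ p.2 ^ (j : ℕ) = ((p.2.val : ℕ) : K) := congrFun hq p.2
    rw [h2, h3] at h1
    exact hp' (Fin.ext (Nat.cast_injective (sub_eq_zero.1 h1)))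
  have hB : B ≠ 0 := by
    refine Finset.prod_ne_zero_iff.2 fun s hs h => ?_
    obtain ⟨_, _, Y, hY⟩ := hv s (Finset.mem_filter.1 hs).2
    obtain ⟨q, hq⟩ := hatt Y
    have h1 := congrArg (MvPolynomial.eval q) h
    rw [hDD, hq, map_zero] at h1
    exact hY h1
  have hFinf : ((F : Set K)).Infinite :=
    Set.infinite_of_injective_forall_mem (f := fun n : ℕ => (n : K)) Nat.cast_injective
      fun n => _root_.natCast_mem F n
  obtain ⟨q, hqF, hq⟩ : ∃ q ∈ Set.pi Set.univ (fun _ : Fin d => (F : Set K)),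
      MvPolynomial.eval q (A * B) ≠ 0 := by
    by_contra hcon
    push Not at hcon
    exact mul_ne_zero hA hB (MvPolynomial.funext_set (fun _ : Fin d => (F : Set K))
      (fun _ => hFinf) fun x hx => by rw [hcon x hx, map_zero])
  rw [map_mul] at hq
  have hqA : MvPolynomial.eval q A ≠ 0 := left_ne_zero_of_mul hq
  have hqB : MvPolynomial.eval q B ≠ 0 := right_ne_zero_of_mul hq
  refine ⟨q, fun j => hqF j (Set.mem_univ _), fun i j hij => ?_, fun s hs => ?_⟩
  · by_contra hne
    rw [map_prod] at hqA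
    refine Finset.prod_ne_zero_iff.1 hqA (i, j)
      (Finset.mem_filter.2 ⟨Finset.mem_univ _, hne⟩) ?_
    simp only at hij
    rw [map_sub, hΘ, hΘ, hij, sub_self]
  · rw [map_prod] at hqB
    have h1 := Finset.prod_ne_zero_iff.1 hqB s (Finset.mem_filter.2 ⟨Finset.mem_univ _, hs⟩)
    rw [hDD] at h1
    exact ⟨v s, (hv s hs).1, (hv s hs).2.1, h1⟩

end Cross

/-- A Galois stable family of `d >= 5` distinct elements lies in the second layer for
`r = d - 3`. -/
theorem mem_next_of_stable {k : Type*} {K : Type*} [Field k] [Field K] [Algebra k K]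
    [IsAlgClosed K] [CharZero k] {F : IntermediateField k K}
    (hF : Algebra.IsAlgebraic F K) {d : ℕ} (hd : 5 ≤ d) (θ : Fin d → K)
    (hθ : Function.Injective θ) (hst : ∀ (g : K ≃ₐ[F] K) (i : Fin d), ∃ j, g (θ i) = θ j)
    (i : Fin d) : θ i ∈ next k (d - 3) F := by
  classical
  obtain ⟨q, hqF, hinj, hq⟩ := exists_q (k := k) (F := F) hd hθ
  set y : Fin d → K := fun i => ∑ j : Fin d, q j * θ i ^ (j : ℕ) with hy
  have hperm : ∀ g : K ≃ₐ[F] K, ∃ σ : Equiv.Perm (Fin d), ∀ i, g (θ i) = θ (σ i) := by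
    intro g
    choose f hf using hst g
    have hfi : Function.Injective f := by
      intro a b hab
      apply hθ
      apply g.injective
      rw [hf, hf, hab]
    exact ⟨Equiv.ofBijective f (Finite.injective_iff_bijective.1 hfi), fun i => hf i⟩
  have hgy : ∀ (g : K ≃ₐ[F] K) (σ : Equiv.Perm (Fin d)), (∀ i, g (θ i) = θ (σ i)) →
      ∀ i, g (y i) = y (σ i) := by
    intro g σ hσ i
    simp only [hy]
    rw [map_sum]
    refine Finset.sum_congr rfl fun j _ => ?_
    have h1 : g (q j) = q j := g.commutes ⟨q j, hqF j⟩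
    rw [map_mul, map_pow, h1, hσ]
  refine mem_of_sep hF (y := y) hd hinj (fun g => ?_) fun g hg => ?_
  · obtain ⟨σ, hσ⟩ := hperm g
    exact ⟨σ, hgy g σ hσ⟩
  · obtain ⟨σ, hσ⟩ := hperm g
    have hσ1 : σ = 1 := by
      by_contra hne
      obtain ⟨v, hv1, hv2, hv⟩ := hq σ hne
      apply hv
      have h1 := hg v.1 v.2.1 v.2.2.1 v.2.2.2
      rw [cross_map (g := g) (hgy g σ hσ)] at h1
      have hne' : ∀ {a b : Fin d}, a ≠ b → y a - y b ≠ 0 :=
        fun hab => sub_ne_zero.2 fun h => hab (hinj h)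
      have hne'' : ∀ {a b : Fin d}, a ≠ b → y (σ a) - y (σ b) ≠ 0 :=
        fun hab => hne' fun h => hab (σ.injective h)
      unfold cross at h1
      rw [div_eq_div_iff (mul_ne_zero (hne'' hv1) (hne'' hv2))
        (mul_ne_zero (hne' hv1) (hne' hv2))] at h1
      simp only [DD]
      rw [← h1]
      ring
    rw [hσ, hσ1]
    rfl

end Pool.Agent.Helper85.SC
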