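import Mathlib

namespace Pool.Agent.Helper85.SC

open MvPolynomial

/-- kill the first `i` variables -/
noncomputable def killMap (K : Type*) [Field K] (m i : ℕ) :
    MvPolynomial (Fin (m + 1)) K →ₐ[K] MvPolynomial (Fin (m + 1)) K :=
  aeval (fun j : Fin (m + 1) => if j.val < i then 0 else X j)

theorem killMap_X {K : Type*} [Field K] (m i : ℕ) (j : Fin (m + 1)) :
    killMap K m i (X j) = if j.val < i then 0 else X j := by
  unfold killMap
  rw [aeval_X]

theorem killMap_comp {K : Type*} [Field K] (m i : ℕ) :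
    (killMap K m (i + 1)).comp (killMap K m i) = killMap K m (i + 1) := by
  apply algHom_ext
  intro j
  rw [AlgHom.comp_apply, killMap_X, killMap_X]
  by_cases h : j.val < i
  · rw [if_pos h, if_pos (by omega), map_zero]
  · rw [if_neg h, killMap_X]

instance killMap_prime {K : Type*} [Field K] (m i : ℕ) :
    (RingHom.ker (killMap K m i).toRingHom).IsPrime :=
  RingHom.ker_isPrime _

theorem killMap_lt {K : Type*} [Field K] (m i : ℕ) (hi : i < m + 1) :
    RingHom.ker (killMap K m i).toRingHom < RingHom.ker (killMap K m (i + 1)).toRingHom := by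
  refine lt_of_le_of_ne ?_ ?_
  · intro p hp
    rw [RingHom.mem_ker] at hp ⊢
    have h1 : killMap K m (i + 1) (killMap K m i p) = killMap K m (i + 1) p := by
      rw [← AlgHom.comp_apply, killMap_comp]
    have hp' : killMap K m i p = 0 := hp
    rw [hp', map_zero] at h1
    exact h1.symm
  · intro h
    have h1 : (X ⟨i, hi⟩ : MvPolynomial (Fin (m + 1)) K) ∈
        RingHom.ker (killMap K m (i + 1)).toRingHom := by
      rw [RingHom.mem_ker]
      change killMap K m (i + 1) (X ⟨i, hi⟩) = 0
      rw [killMap_X, if_pos (by simp)]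
    rw [← h, RingHom.mem_ker] at h1
    have h2 : killMap K m i (X ⟨i, hi⟩) = 0 := h1
    rw [killMap_X, if_neg (by simp)] at h2
    exact X_ne_zero _ h2

theorem killMap_height {K : Type*} [Field K] (m i : ℕ) (hi : i ≤ m + 1) :
    (i : ℕ∞) ≤ (RingHom.ker (killMap K m i).toRingHom).height := by
  induction i with
  | zero => simp
  | succ i ih =>
    have h1 := ih (by omega)
    have h2 := Ideal.height_add_one_le_of_lt_of_isPrime (killMap_lt (K := K) m i (by omega))
    calc ((i + 1 : ℕ) : ℕ∞) = (i : ℕ∞) + 1 := by push_cast; rfl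
      _ ≤ _ := by gcongr
      _ ≤ _ := h2

theorem killMap_last {K : Type*} [Field K] (m : ℕ) :
    RingHom.ker (killMap K m (m + 1)).toRingHom
      ≤ (vanishingIdeal K {(0 : Fin (m + 1) → K)} : Ideal (MvPolynomial (Fin (m + 1)) K)) := by
  intro p hp
  rw [mem_vanishingIdeal_singleton_iff]
  rw [RingHom.mem_ker] at hp
  have hp' : killMap K m (m + 1) p = 0 := hp
  have h1 : ((aeval (0 : Fin (m + 1) → K) : MvPolynomial (Fin (m + 1)) K →ₐ[K] K).comp
      (killMap K m (m + 1))) = aeval (0 : Fin (m + 1) → K) := by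
    apply algHom_ext
    intro j
    rw [AlgHom.comp_apply, killMap_X, if_pos j.2, map_zero, aeval_X]
    rfl
  rw [← h1, AlgHom.comp_apply, hp', map_zero]

/-- `m` forms of positive degrees in `m + 1` variables over an algebraically closed field have a
common nontrivial zero. -/
theorem exists_common_zero {K : Type*} [Field K] [IsAlgClosed K] {m : ℕ}
    (P : Fin m → MvPolynomial (Fin (m + 1)) K) (d : Fin m → ℕ) (hd : ∀ j, 0 < d j)
    (hP : ∀ j, (P j).IsHomogeneous (d j)) :
    ∃ c : Fin (m + 1) → K, c ≠ 0 ∧ ∀ j, eval c (P j) = 0 := by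
  by_contra hcon
  push Not at hcon
  have hz : zeroLocus K (Ideal.span (Set.range P)) = {(0 : Fin (m + 1) → K)} := by
    rw [zeroLocus_span]
    ext x
    simp only [Set.mem_ofPred_eq, Set.mem_singleton_iff]
    constructor
    · intro h
      by_contra hx
      obtain ⟨j, hj⟩ := hcon x hx
      apply hj
      have := h (P j) ⟨j, rfl⟩
      rw [← coe_aeval_eq_eval]
      exact this
    · rintro rfl p ⟨j, rfl⟩
      have h0 : coeff 0 (P j) = 0 := by
        apply (hP j).coeff_eq_zero
        have := hd j
        simp only [map_zero]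
        omega
      have h1 : aeval (0 : Fin (m + 1) → K) (P j) = coeff 0 (P j) := by
        rw [aeval_zero, constantCoeff_eq]
        rfl
      rw [h1, h0]
  have hrad : (Ideal.span (Set.range P)).radical
      = vanishingIdeal K {(0 : Fin (m + 1) → K)} := by
    rw [← vanishingIdeal_zeroLocus_eq_radical (K := K), hz]
  have hmin : (vanishingIdeal K {(0 : Fin (m + 1) → K)} : Ideal (MvPolynomial (Fin (m + 1)) K))
      ∈ (Ideal.span (Set.range P)).minimalPrimes := by
    refine ⟨⟨inferInstance, ?_⟩, ?_⟩
    · rw [← hrad]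
      exact Ideal.le_radical
    · rintro q ⟨hq1, hq2⟩ hq3
      rw [← hrad]
      exact hq1.radical_le_iff.mpr hq2
  have h1 := Ideal.height_le_card_of_mem_minimalPrimes_span (Set.finite_range P) hmin
  have h2 : (Set.range P).ncard ≤ m := by
    rw [← Set.image_univ]
    refine (Set.ncard_image_le Set.finite_univ).trans ?_
    rw [Set.ncard_univ, Nat.card_eq_fintype_card, Fintype.card_fin]
  have h3 := killMap_height (K := K) m (m + 1) le_rfl
  have h4 := Ideal.height_mono (killMap_last (K := K) m)
  have h5 : ((m + 1 : ℕ) : ℕ∞) ≤ (m : ℕ∞) :=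
    h3.trans (h4.trans (h1.trans (by exact_mod_cast h2)))
  have h6 : m + 1 ≤ m := by exact_mod_cast h5
  omega

end Pool.Agent.Helper85.SC
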