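import Pool.Agent.Helper85.SC3.Span
import Pool.Agent.Helper85.SC3.Count
import Pool.Agent.Helper85.SC3.Zero
import Pool.Agent.Helper85.SC3.Data

namespace Pool.Agent.Helper85.SC

open MvPolynomial

namespace Tr

variable {k : Type*} {K : Type*} [Field k] [Field K] [Algebra k K] {n m : ℕ}

/-- The linear form of the `i`-th point, with coefficients in `R`, an algebra over `k`. -/
noncomputable def lf {R : Type*} [CommRing R] [Algebra k R] (U : Fin (m + 1) → Polynomial k)
    (x : R) : MvPolynomial (Fin (m + 1)) R :=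
  ∑ j, C (Polynomial.aeval x (U j)) * X j

/-- The form of degree `l`. -/
noncomputable def pf {R : Type*} [CommRing R] [Algebra k R] (U : Fin (m + 1) → Polynomial k)
    (x : Fin n → R) (l : ℕ) : MvPolynomial (Fin (m + 1)) R :=
  ∑ i, (lf U (x i)) ^ l

theorem isHomogeneous_lf {R : Type*} [CommRing R] [Algebra k R]
    (U : Fin (m + 1) → Polynomial k) (x : R) : (lf U x).IsHomogeneous 1 := by
  unfold lf
  refine IsHomogeneous.sum _ _ _ fun j _ => ?_
  have := (isHomogeneous_C (Fin (m + 1)) (Polynomial.aeval x (U j))).mul (isHomogeneous_X R j)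
  rwa [zero_add] at this

theorem isHomogeneous_pf {R : Type*} [CommRing R] [Algebra k R]
    (U : Fin (m + 1) → Polynomial k) (x : Fin n → R) (l : ℕ) : (pf U x l).IsHomogeneous l := by
  unfold pf
  refine IsHomogeneous.sum _ _ _ fun i _ => ?_
  have := (isHomogeneous_lf U (x i)).pow l
  rwa [one_mul] at this

theorem map_lf {R R' : Type*} [CommRing R] [Algebra k R] [CommRing R'] [Algebra k R']
    (f : R →ₐ[k] R') (U : Fin (m + 1) → Polynomial k) (x : R) :
    MvPolynomial.map (f : R →+* R') (lf U x) = lf U (f x) := by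
  unfold lf
  rw [map_sum]
  refine Finset.sum_congr rfl fun j _ => ?_
  rw [map_mul, map_C, map_X]
  congr 2
  exact (Polynomial.aeval_algHom_apply f x (U j)).symm

theorem map_pf {R R' : Type*} [CommRing R] [Algebra k R] [CommRing R'] [Algebra k R']
    (f : R →ₐ[k] R') (U : Fin (m + 1) → Polynomial k) (x : Fin n → R) (l : ℕ) :
    MvPolynomial.map (f : R →+* R') (pf U x l) = pf U (fun i => f (x i)) l := by
  unfold pf
  rw [map_sum]
  refine Finset.sum_congr rfl fun i _ => ?_
  rw [map_pow, map_lf]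

theorem eval_pf {R : Type*} [CommRing R] [Algebra k R]
    (U : Fin (m + 1) → Polynomial k) (x : Fin n → R) (l : ℕ) (c : Fin (m + 1) → R) :
    eval c (pf U x l) = ∑ i, (∑ j, c j * Polynomial.aeval (x i) (U j)) ^ l := by
  unfold pf lf
  rw [map_sum]
  refine Finset.sum_congr rfl fun i _ => ?_
  rw [map_pow, map_sum]
  congr 1
  refine Finset.sum_congr rfl fun j _ => ?_
  rw [map_mul, eval_C, eval_X, mul_comm]

/-- the explicit form over `R` -/
noncomputable def ef (R : Type*) [CommRing R] (m l : ℕ) : MvPolynomial (Fin (m + 1)) R :=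
  X 0 ^ l + ∑ j : Fin m, if ((j : ℕ) + 1) ∣ l then
    C (((j : ℕ) + 1 : ℕ) : R) * X j.succ ^ l else 0

theorem map_ef {R R' : Type*} [CommRing R] [CommRing R'] (f : R →+* R') (m l : ℕ) :
    MvPolynomial.map f (ef R m l) = ef R' m l := by
  unfold ef
  rw [map_add, map_pow, map_X, map_sum]
  congr 1
  refine Finset.sum_congr rfl fun j _ => ?_
  split_ifs with h
  · rw [map_mul, map_pow, map_X, map_C, map_natCast]
  · rw [map_zero]

/-- all the terms but the leading one -/
noncomputable def gf (R : Type*) [CommRing R] (m : ℕ) (j : Fin m) : MvPolynomial (Fin (m + 1)) R :=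
  X 0 ^ ((j : ℕ) + 1) + ∑ j' ∈ Finset.univ.erase j, if ((j' : ℕ) + 1) ∣ ((j : ℕ) + 1) then
    C (((j' : ℕ) + 1 : ℕ) : R) * X j'.succ ^ ((j : ℕ) + 1) else 0

theorem ef_eq (R : Type*) [CommRing R] (m : ℕ) (j : Fin m) :
    ef R m ((j : ℕ) + 1) = C (((j : ℕ) + 1 : ℕ) : R) * X j.succ ^ ((j : ℕ) + 1) + gf R m j := by
  unfold ef gf
  rw [← Finset.add_sum_erase _ _ (Finset.mem_univ j)]
  rw [if_pos (dvd_refl _)]
  ring

theorem vars_gf {R : Type*} [CommRing R] {m : ℕ} (j : Fin m) (i : Fin (m + 1))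
    (hi : i ∈ (gf R m j).vars) : i < j.succ := by
  classical
  unfold gf at hi
  rcases Finset.mem_union.1 (vars_add_subset _ _ hi) with h | h
  · have h1 := vars_pow _ _ h
    by_cases hR : Nontrivial R
    · rw [vars_X, Finset.mem_singleton] at h1
      rw [h1]
      exact Fin.succ_pos j
    · rw [not_nontrivial_iff_subsingleton] at hR
      exfalso
      have : (X 0 : MvPolynomial (Fin (m + 1)) R) = 0 := Subsingleton.elim _ _
      rw [this, vars_0] at h1
      simp at h1
  · have h1 := vars_sum_subset _ _ h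
    rw [Finset.mem_biUnion] at h1
    obtain ⟨j', hj', h2⟩ := h1
    have hne : j' ≠ j := (Finset.mem_erase.1 hj').1
    split_ifs at h2 with hd
    · have h3 := vars_mul _ _ h2
      rw [vars_C, Finset.empty_union] at h3
      have h4 := vars_pow _ _ h3
      by_cases hR : Nontrivial R
      · rw [vars_X, Finset.mem_singleton] at h4
        rw [h4]
        have h5 := Nat.le_of_dvd (Nat.succ_pos _) hd
        have h6 : (j' : ℕ) < j := lt_of_le_of_ne (by omega) fun h => hne (Fin.ext h)
        exact Fin.succ_lt_succ_iff.2 h6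
      · rw [not_nontrivial_iff_subsingleton] at hR
        exfalso
        have : (X j'.succ : MvPolynomial (Fin (m + 1)) R) = 0 := Subsingleton.elim _ _
        rw [this, vars_0] at h4
        simp at h4
    · rw [vars_0] at h2
      simp at h2

theorem spanK (a : Fin n → k) (U : Fin (m + 1) → Polynomial k) [CharZero k]
    (hval : ∀ l : ℕ, 1 ≤ l →
        ∑ i, (∑ j, C ((U j).eval (a i)) * X j : MvPolynomial (Fin (m + 1)) k) ^ l =
          X 0 ^ l + ∑ j : Fin m, if ((j : ℕ) + 1) ∣ l then
            C (((j : ℕ) + 1 : ℕ) : k) * X j.succ ^ l else 0)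
    (y : Fin n → K) (hy : AlgebraicIndependent k y) (N : ℕ) (p : MvPolynomial (Fin (m + 1)) K)
    (hp : p.IsHomogeneous N) :
    ∃ q ∈ Submodule.span K {q : MvPolynomial (Fin (m + 1)) K | ∃ e : Fin (m + 1) →₀ ℕ,
        e.degree = N ∧ (∀ j : Fin m, e j.succ ≤ j) ∧ q = monomial e 1},
      p - q ∈ Ideal.span (Set.range fun j : Fin m => pf U y ((j : ℕ) + 1)) := by
  classical
  set B := MvPolynomial (Fin n) k with hB
  set evA : B →ₐ[k] k := aeval a with hevA
  set φ : B →ₐ[k] K := aeval y with hφ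
  set P : Fin m → MvPolynomial (Fin (m + 1)) B := fun j => pf U (fun i => (X i : B)) ((j : ℕ) + 1)
    with hPdef
  have hunit : ∀ j : Fin m, IsUnit ((((j : ℕ) + 1 : ℕ) : B)) := by
    intro j
    have h1 : IsUnit ((((j : ℕ) + 1 : ℕ) : k)) := by
      rw [isUnit_iff_ne_zero]
      exact Nat.cast_ne_zero.2 (Nat.succ_ne_zero _)
    have h2 := h1.map (algebraMap k B)
    rwa [map_natCast] at h2
  obtain ⟨b, hb1, hb⟩ := span_of_reduction (RingHom.ker (evA : B →+* k)) P
    (fun j => (hunit j).unit) (fun j => isHomogeneous_pf _ _ _) (fun j => by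
      refine ⟨gf B m j, P j - ef B m ((j : ℕ) + 1), fun i hi => vars_gf j i hi, fun d => ?_, ?_⟩
      · rw [RingHom.mem_ker, ← coeff_map, map_sub, map_ef, hPdef]
        have h1 : MvPolynomial.map (evA : B →+* k) (pf U (fun i => (X i : B)) ((j : ℕ) + 1)) =
            ef k m ((j : ℕ) + 1) := by
          rw [map_pf]
          unfold ef
          rw [← hval _ (Nat.succ_le_succ (Nat.zero_le _))]
          unfold pf lf
          refine Finset.sum_congr rfl fun i _ => ?_
          congr 1
          refine Finset.sum_congr rfl fun j' _ => ?_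
          congr 2
          have h2 : (fun i => evA (X i : B)) i = a i := by
            show (aeval a : B →ₐ[k] k) (X i) = a i
            rw [aeval_X]
          rw [h2, Polynomial.coe_aeval_eq_eval]
        simp only
        rw [h1, sub_self, coeff_zero]
      · rw [ef_eq, IsUnit.unit_spec]
        ring) N
  have hb0 : b ≠ 0 := by
    intro h
    rw [h, zero_sub, RingHom.mem_ker, map_neg, map_one] at hb1
    exact one_ne_zero (neg_eq_zero.1 hb1)
  have hφb : φ b ≠ 0 := by
    intro h
    apply hb0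
    have : Function.Injective (aeval y : B →ₐ[k] K) := hy
    apply this
    rw [map_zero]
    exact h
  set Sp : Submodule K (MvPolynomial (Fin (m + 1)) K) :=
    Submodule.span K {q : MvPolynomial (Fin (m + 1)) K | ∃ e : Fin (m + 1) →₀ ℕ,
        e.degree = N ∧ (∀ j : Fin m, e j.succ ≤ j) ∧ q = monomial e 1} with hSp
  set J : Ideal (MvPolynomial (Fin (m + 1)) K) :=
    Ideal.span (Set.range fun j : Fin m => pf U y ((j : ℕ) + 1)) with hJ
  set T : Submodule K (MvPolynomial (Fin (m + 1)) K) := Sp ⊔ J.restrictScalars K with hT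
  have hmap : ∀ x ∈ Ideal.span (Set.range P), MvPolynomial.map (φ : B →+* K) x ∈ J := by
    intro x hx
    have h1 := Ideal.mem_map_of_mem (MvPolynomial.map (φ : B →+* K)) hx
    rw [Ideal.map_span] at h1
    refine (Ideal.span_mono ?_) h1
    rintro _ ⟨_, ⟨j, rfl⟩, rfl⟩
    refine ⟨j, ?_⟩
    show pf U y ((j : ℕ) + 1) = _
    rw [hPdef]
    simp only
    rw [map_pf]
    congr 1
    funext i
    rw [hφ, aeval_X]
  have hmono : ∀ e : Fin (m + 1) →₀ ℕ, e.degree = N → (monomial e (1 : K)) ∈ T := by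
    intro e he
    obtain ⟨q, hq, hq2⟩ := hb (monomial e 1) (isHomogeneous_monomial _ he)
    have h1 := hmap _ hq2
    rw [map_sub, map_mul, map_C, map_monomial, map_one] at h1
    have h2 : MvPolynomial.map (φ : B →+* K) q ∈ Sp := by
      refine Submodule.span_induction (p := fun q _ => MvPolynomial.map (φ : B →+* K) q ∈ Sp)
        ?_ ?_ ?_ ?_ hq
      · rintro _ ⟨e', h3, h4, rfl⟩
        rw [map_monomial, map_one]
        exact Submodule.subset_span ⟨e', h3, h4, rfl⟩
      · rw [map_zero]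
        exact Sp.zero_mem
      · intro x x' _ _ hx hx'
        rw [map_add]
        exact Sp.add_mem hx hx'
      · intro c x _ hx
        rw [MvPolynomial.smul_eq_C_mul, map_mul, map_C, ← MvPolynomial.smul_eq_C_mul]
        exact Sp.smul_mem _ hx
    have h3 : C ((φ : B →+* K) b) * monomial e (1 : K) ∈ T := by
      have h4 : C ((φ : B →+* K) b) * monomial e (1 : K) =
          MvPolynomial.map (φ : B →+* K) q +
            (C ((φ : B →+* K) b) * monomial e (1 : K) - MvPolynomial.map (φ : B →+* K) q) := by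
        ring
      rw [h4]
      exact Submodule.add_mem_sup h2 h1
    rw [← MvPolynomial.smul_eq_C_mul] at h3
    have h5 := T.smul_mem ((φ b)⁻¹) h3
    rw [smul_smul] at h5
    have h6 : (φ b)⁻¹ * (φ : B →+* K) b = 1 := inv_mul_cancel₀ hφb
    rwa [h6, one_smul] at h5
  have hpT : p ∈ T := by
    rw [p.as_sum]
    refine T.sum_mem fun e he => ?_
    have h1 : e.degree = N := by
      have h1 := hp (mem_support_iff.1 he)
      have h2 := DFunLike.congr_fun (Finsupp.degree_eq_weight_one (σ := Fin (m + 1)) (R := ℕ)) e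
      exact h2.trans h1
    have h2 : monomial e (coeff e p) = coeff e p • monomial e (1 : K) := by
      rw [smul_monomial, smul_eq_mul, mul_one]
    rw [h2]
    exact T.smul_mem _ (hmono e h1)
  obtain ⟨q, hq, r, hr, hqr⟩ := Submodule.mem_sup.1 hpT
  refine ⟨q, hq, ?_⟩
  have : p - q = r := by rw [← hqr]; ring
  rw [this]
  exact hr

end Tr

/-- Tschirnhaus transformations killing the first `m` power sums: a finite nonempty set with at
most `m!` elements. -/
theorem exists_transform {k : Type*} {K : Type*} [Field k] [IsAlgClosed k] [CharZero k] [Field K]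
    [IsAlgClosed K] [Algebra k K] {n m : ℕ} (hn : m * (m + 1) / 2 + 1 ≤ n) (y : Fin n → K)
    (hy : AlgebraicIndependent k y) :
    ∃ U : Fin (m + 1) → Polynomial k, LinearIndependent k U ∧ (∀ j, (U j).natDegree < n) ∧
      ∃ Z : Set (Fin (m + 1) → K), Z = {c | c 0 = 1 ∧ ∀ l, 1 ≤ l → l ≤ m →
          ∑ i, (∑ j, c j * Polynomial.aeval (y i) (U j)) ^ l = 0} ∧
        Z.Finite ∧ Z.Nonempty ∧ Z.ncard ≤ m.factorial := by
  obtain ⟨a, U, hLI, hdeg, hval⟩ := exists_data k hn
  refine ⟨U, hLI, hdeg, _, rfl, ?_⟩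
  have : Infinite K := inferInstance
  obtain ⟨h1, h2, h3⟩ := count_of_span (fun j : Fin m => Tr.pf U y ((j : ℕ) + 1))
    (Tr.spanK a U hval y hy)
  have hZ : {c : Fin (m + 1) → K | c 0 = 1 ∧ ∀ l, 1 ≤ l → l ≤ m →
      ∑ i, (∑ j, c j * Polynomial.aeval (y i) (U j)) ^ l = 0} =
      {c : Fin (m + 1) → K | c 0 = 1 ∧
        ∀ j : Fin m, eval c (Tr.pf U y ((j : ℕ) + 1)) = 0} := by
    ext c
    rw [Set.mem_ofPred_eq, Set.mem_ofPred_eq]
    refine and_congr_right fun _ => ⟨fun h j => ?_, fun h l hl1 hl2 => ?_⟩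
    · rw [Tr.eval_pf]
      exact h _ (by omega) (by have := j.2; omega)
    · have h4 := h ⟨l - 1, by omega⟩
      rw [Tr.eval_pf] at h4
      have h5 : ((⟨l - 1, by omega⟩ : Fin m) : ℕ) + 1 = l := by
        show l - 1 + 1 = l
        omega
      rwa [h5] at h4
  rw [hZ]
  refine ⟨h2, ?_, h3⟩
  obtain ⟨c, hc0, hc⟩ := exists_common_zero (fun j : Fin m => Tr.pf U y ((j : ℕ) + 1))
    (fun j => (j : ℕ) + 1) (fun j => Nat.succ_pos _) (fun j => Tr.isHomogeneous_pf _ _ _)
  have hc00 : c 0 ≠ 0 := fun h => hc0 (h1 c h hc)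
  refine ⟨fun j => (c 0)⁻¹ * c j, inv_mul_cancel₀ hc00, fun j => ?_⟩
  have h4 := hc j
  rw [Tr.eval_pf] at h4 ⊢
  have h5 : ∀ i, (∑ j', (c 0)⁻¹ * c j' * Polynomial.aeval (y i) (U j')) ^ ((j : ℕ) + 1) =
      ((c 0)⁻¹) ^ ((j : ℕ) + 1) *
        (∑ j', c j' * Polynomial.aeval (y i) (U j')) ^ ((j : ℕ) + 1) := by
    intro i
    rw [← mul_pow, Finset.mul_sum]
    congr 1
    refine Finset.sum_congr rfl fun j' _ => ?_
    ring
  rw [Finset.sum_congr rfl fun i _ => h5 i, ← Finset.mul_sum, h4, mul_zero]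

end Pool.Agent.Helper85.SC
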