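import Pool.Agent.Helper85.SC3.FinSet
import Pool.Agent.Helper85.SC3.Transform
import Pool.Agent.Helper85.SC3.Dist
import Pool.Agent.Helper85.SC3.Coef

namespace Pool.Agent.Helper85.SC

open IntermediateField

variable {k : Type*} {K : Type*} [Field k] [Field K] [Algebra k K]

theorem fact_bound (m : ℕ) (hm : 3 ≤ m) : m * (m + 1) / 2 + 1 ≤ m.factorial + m - 2 := by
  induction m, hm using Nat.le_induction with
  | base => decide
  | succ m hm ih =>
    have h1 : m.factorial + m ≥ 2 := by omega
    have h2 : (m + 1).factorial = (m + 1) * m.factorial := Nat.factorial_succ m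
    have h3 : 6 ≤ m.factorial := by
      calc 6 = (3).factorial := rfl
        _ ≤ m.factorial := Nat.factorial_le hm
    have h4 : (m + 1) * (m + 1 + 1) / 2 = m * (m + 1) / 2 + (m + 1) := by
      have : (m + 1) * (m + 1 + 1) = m * (m + 1) + 2 * (m + 1) := by ring
      rw [this, Nat.add_mul_div_left _ _ (by norm_num)]
    rw [h4, h2]
    have h5 : (m + 1) * m.factorial = m * m.factorial + m.factorial := by ring
    have h6 : m * 6 ≤ m * m.factorial := Nat.mul_le_mul_left _ h3
    omega

theorem third [IsAlgClosed k] [CharZero k] [IsAlgClosed K] {F : IntermediateField k K} {n : ℕ}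
    {y : Fin n → K} (hG : Gen F y) {m : ℕ} (hm : 3 ≤ m) (hn : m.factorial + m - 2 ≤ n)
    (i₀ : Fin n) : y i₀ ∈ next k (n - m - 1) (next k (n - m - 1) F) := by
  classical
  have h6 : 6 ≤ m.factorial := by
    calc 6 = (3).factorial := rfl
      _ ≤ m.factorial := Nat.factorial_le hm
  have hn5 : 5 ≤ n := by omega
  have hr : 1 ≤ n - m - 1 := by omega
  obtain ⟨U, hU, hUdeg, Z, hZ, hfin, hne, hcard⟩ :=
    exists_transform (k := k) ((fact_bound m hm).trans hn) y hG.ind
  set E : IntermediateField k K := next k (n - m - 1) F with hE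
  have hFE : F ≤ E := le_next hr F
  -- action on polynomial values
  have hval : ∀ (g : K ≃ₐ[F] K) (i : Fin n) (p : Polynomial k),
      g (Polynomial.aeval (y i) p) = Polynomial.aeval (y (piHom hG g i)) p := by
    intro g i p
    have h1 : ((g.restrictScalars k : K ≃ₐ[k] K) : K →ₐ[k] K) (y i) = y (piHom hG g i) :=
      piHom_spec hG g i
    rw [← h1, Polynomial.aeval_algHom_apply]
    rfl
  have hst : ∀ g : K ≃ₐ[F] K, ∀ c ∈ Z, (fun i => g (c i)) ∈ Z := by
    intro g c hc
    rw [hZ] at hc ⊢
    refine ⟨by change g (c 0) = 1; rw [hc.1, map_one], fun l hl1 hl2 => ?_⟩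
    have h1 := congrArg g (hc.2 l hl1 hl2)
    rw [map_zero, map_sum] at h1
    rw [← h1, ← Equiv.sum_comp (piHom hG g)
      (fun i => (∑ j, g (c j) * Polynomial.aeval (y i) (U j)) ^ l)]
    refine Finset.sum_congr rfl fun i _ => ?_
    rw [map_pow, map_sum]
    congr 1
    refine Finset.sum_congr rfl fun j _ => ?_
    rw [map_mul, hval]
  obtain ⟨c, hc⟩ := hne
  have hcE : ∀ j, c j ∈ E := fun j =>
    next_mono_right (by omega) (by omega) F
      (mem_next_of_finite hG.alg (by omega : 5 ≤ m.factorial) Z hfin hcard hst hc j)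
  have hc' := hc
  rw [hZ] at hc'
  obtain ⟨hc0, hcp⟩ := hc'
  -- the transformed roots
  let z : Fin n → K := fun i => ∑ j, c j * Polynomial.aeval (y i) (U j)
  have hsum : ∑ i, z i = 0 := by
    have h1 := hcp 1 le_rfl (by omega)
    simpa using h1
  have hz0 : ∃ i, z i ≠ 0 := by
    by_contra hcon
    push Not at hcon
    -- the polynomial with coefficients in `K`
    let q : Polynomial K := ∑ j, Polynomial.C (c j) * (U j).map (algebraMap k K)
    have hq : ∀ i, q.eval (y i) = 0 := by
      intro i
      rw [← hcon i]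
      simp only [q, z, Polynomial.eval_finsetSum, Polynomial.eval_mul, Polynomial.eval_C]
      refine Finset.sum_congr rfl fun j _ => ?_
      rw [Polynomial.aeval_def, Polynomial.eval_map]
    have hqd : q.degree < n := by
      refine (Polynomial.degree_sum_le _ _).trans_lt ?_
      refine (Finset.sup_lt_iff (WithBot.bot_lt_coe n)).2 ?_
      intro j _
      refine (Polynomial.degree_mul_le _ _).trans_lt ?_
      refine (add_le_add Polynomial.degree_C_le
        (Polynomial.degree_map_le.trans Polynomial.degree_le_natDegree)).trans_lt ?_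
      rw [zero_add]
      exact WithBot.coe_lt_coe.2 (hUdeg j)
    have hq0 : q = 0 := by
      refine Polynomial.eq_zero_of_degree_lt_of_eval_finset_eq_zero
        (Finset.univ.image y) ?_ ?_
      · rw [Finset.card_image_of_injective _ hG.ind.injective, Finset.card_univ,
          Fintype.card_fin]
        exact hqd
      · intro w hw
        obtain ⟨i, -, rfl⟩ := Finset.mem_image.1 hw
        exact hq i
    obtain ⟨φ, hφ⟩ := LinearMap.exists_leftInverse_of_injective (Algebra.linearMap k K)
      (LinearMap.ker_eq_bot.2 (algebraMap k K).injective)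
    have hφ1 : φ 1 = 1 := by
      have := congrArg (fun f => f 1) hφ
      simpa using this
    have h2 := Fintype.linearIndependent_iff.1 hU (fun j => φ (c j)) (by
      ext s
      have h3 := congrArg (fun p => φ (Polynomial.coeff p s)) hq0
      simp only [q, Polynomial.finsetSum_coeff, Polynomial.coeff_C_mul, Polynomial.coeff_map,
        map_sum, Polynomial.coeff_zero, map_zero] at h3
      rw [Polynomial.finsetSum_coeff, Polynomial.coeff_zero, ← h3]
      refine Finset.sum_congr rfl fun j _ => ?_
      rw [Polynomial.coeff_smul, mul_comm (c j), ← Algebra.smul_def, map_smul, smul_eq_mul,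
        smul_eq_mul, mul_comm])
    have h4 := h2 0
    rw [hc0, hφ1] at h4
    exact one_ne_zero h4
  have hinj : Function.Injective z :=
    injective_of_orbit hG hn5 Z hfin (by omega) hst hc U z (fun i => rfl) hsum hz0
  have hgz : ∀ g : K ≃ₐ[F] K, (∀ w ∈ E, g w = w) → ∀ i, g (z i) = z (piHom hG g i) := by
    intro g hg i
    simp only [z, map_sum, map_mul]
    refine Finset.sum_congr rfl fun j _ => ?_
    rw [hg _ (hcE j), hval]
  have hzn : ∀ i, z i ∈ next k (n - m - 1) E := by
    intro i
    refine mem_next_of_psum (by omega) z (fun s => ?_) (fun l hl1 hl2 => hcp l hl1 hl2) i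
    refine mem_of_fixed hG.alg hFE fun g hg => ?_
    have h1 : (∏ j, (Polynomial.X - Polynomial.C (z j))).map (g : K →+* K) =
        ∏ j, (Polynomial.X - Polynomial.C (z j)) := by
      rw [Polynomial.map_prod,
        ← Equiv.prod_comp (piHom hG g) (fun j => Polynomial.X - Polynomial.C (z j))]
      refine Finset.prod_congr rfl fun j _ => ?_
      rw [Polynomial.map_sub, Polynomial.map_X, Polynomial.map_C]
      congr 2
      exact hgz g hg j
    have h2 := congrArg (fun p => Polynomial.coeff p s) h1
    simp only [Polynomial.coeff_map] at h2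
    exact h2
  refine mem_of_fixed hG.alg (hFE.trans (le_next hr E)) fun g hg => ?_
  have hgE : ∀ w ∈ E, g w = w := fun w hw => hg w (le_next hr E hw)
  have h1 := hgz g hgE i₀
  rw [hg _ (hzn i₀)] at h1
  have h2 := hinj h1
  rw [piHom_spec hG, ← h2]

end Pool.Agent.Helper85.SC
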